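import Mathlib

/-!
Binary forms: induction over monomials, decomposition at a point, lifting of syzygies.
-/

open MvPolynomial

namespace Pool.Agent.Helper61.SRC

universe u

variable {k : Type u} [Field k]

lemma monomial_fin_two (d : Fin 2 →₀ ℕ) (c : k) :
    (monomial d c : MvPolynomial (Fin 2) k) = C c * (X 0 ^ (d 0) * X 1 ^ (d 1)) := by
  rw [monomial_eq, Finsupp.prod_fintype _ _ (fun i => pow_zero _), Fin.prod_univ_two]

lemma hom_induction {n : ℕ} {p : MvPolynomial (Fin 2) k → Prop} (h0 : p 0)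
    (hadd : ∀ a b, p a → p b → p (a + b))
    (hmon : ∀ i j (c : k), i + j = n → p (C c * (X 0 ^ i * X 1 ^ j)))
    (R : MvPolynomial (Fin 2) k) (hR : R.IsHomogeneous n) : p R := by
  rw [R.as_sum]
  refine Finset.sum_induction _ p hadd h0 fun d hd => ?_
  rw [monomial_fin_two]
  apply hmon
  have h1 := hR (mem_support_iff.mp hd)
  rw [← h1]
  simp [Finsupp.weight_apply, Finsupp.sum_fintype]

lemma isHomogeneous_mon (i j : ℕ) :
    (X 0 ^ i * X 1 ^ j : MvPolynomial (Fin 2) k).IsHomogeneous (i + j) :=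
  (isHomogeneous_X_pow _ _).mul (isHomogeneous_X_pow _ _)

/-- The linear form `m0` with value one at `P`, the linear form `ℓ` vanishing at `P`. -/
structure Frame (P : Fin 2 → k) where
  μ0 : k
  μ1 : k
  h : μ0 * P 0 + μ1 * P 1 = 1

lemma exists_frame {P : Fin 2 → k} (hP : P ≠ 0) : Nonempty (Frame P) := by
  by_cases h0 : P 0 = 0
  · have h1 : P 1 ≠ 0 := by
      intro h1
      apply hP
      funext i
      fin_cases i
      · exact h0
      · exact h1
    exact ⟨⟨0, (P 1)⁻¹, by rw [inv_mul_cancel₀ h1]; ring⟩⟩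
  · exact ⟨⟨(P 0)⁻¹, 0, by rw [inv_mul_cancel₀ h0]; ring⟩⟩

namespace Frame

variable {P : Fin 2 → k} (F : Frame P)

/-- linear form with value one at `P` -/
noncomputable def m0 : MvPolynomial (Fin 2) k := C F.μ0 * X 0 + C F.μ1 * X 1

/-- linear form vanishing at `P` -/
noncomputable def el (_ : Frame P) : MvPolynomial (Fin 2) k := C (P 1) * X 0 - C (P 0) * X 1

lemma hom_m0 : (F.m0).IsHomogeneous 1 := by
  refine IsHomogeneous.add ?_ ?_
  · simpa using (isHomogeneous_C (Fin 2) F.μ0).mul (isHomogeneous_X k 0)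
  · simpa using (isHomogeneous_C (Fin 2) F.μ1).mul (isHomogeneous_X k 1)

lemma hom_el : (F.el).IsHomogeneous 1 := by
  refine IsHomogeneous.sub ?_ ?_
  · simpa using (isHomogeneous_C (Fin 2) (P 1)).mul (isHomogeneous_X k 0)
  · simpa using (isHomogeneous_C (Fin 2) (P 0)).mul (isHomogeneous_X k 1)

lemma eval_m0 : eval P F.m0 = 1 := by
  simp [m0, F.h]

lemma eval_el : eval P F.el = 0 := by
  simp [el]; ring

lemma X0_eq : (X 0 : MvPolynomial (Fin 2) k) = C (P 0) * F.m0 + C F.μ1 * F.el := by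
  have h : (C F.μ0 * C (P 0) + C F.μ1 * C (P 1) : MvPolynomial (Fin 2) k) = 1 := by
    rw [← C_mul, ← C_mul, ← C_add, F.h, C_1]
  unfold m0 el
  linear_combination -(X 0) * h

lemma X1_eq : (X 1 : MvPolynomial (Fin 2) k) = C (P 1) * F.m0 - C F.μ0 * F.el := by
  have h : (C F.μ0 * C (P 0) + C F.μ1 * C (P 1) : MvPolynomial (Fin 2) k) = 1 := by
    rw [← C_mul, ← C_mul, ← C_add, F.h, C_1]
  unfold m0 el
  linear_combination -(X 1) * h

/-- decomposition property of a form of degree `n + 1` at the point `P` -/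
def Dec (n : ℕ) (R : MvPolynomial (Fin 2) k) : Prop :=
  ∃ R' : MvPolynomial (Fin 2) k, R'.IsHomogeneous n ∧
    R = C (eval P R) * F.m0 ^ (n + 1) + F.el * R'

lemma dec_X0 {n : ℕ} {R : MvPolynomial (Fin 2) k} (h : F.Dec n R) : F.Dec (n + 1) (X 0 * R) := by
  obtain ⟨R', hR', hR⟩ := h
  refine ⟨C (F.μ1 * eval P R) * F.m0 ^ (n + 1) + X 0 * R', ?_, ?_⟩
  · refine IsHomogeneous.add ?_ ?_
    · simpa using (isHomogeneous_C (Fin 2) (F.μ1 * eval P R)).mul (F.hom_m0.pow (n + 1))
    · rw [add_comm n 1]; exact (isHomogeneous_X k 0).mul hR'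
  · rw [map_mul, eval_X, C_mul, C_mul]
    set e := C (eval P R) with he
    have h0 := F.X0_eq
    calc X 0 * R = X 0 * (e * F.m0 ^ (n + 1) + F.el * R') := by rw [← hR]
      _ = _ := by linear_combination (e * F.m0 ^ (n + 1)) * h0

lemma dec_X1 {n : ℕ} {R : MvPolynomial (Fin 2) k} (h : F.Dec n R) : F.Dec (n + 1) (X 1 * R) := by
  obtain ⟨R', hR', hR⟩ := h
  refine ⟨- (C (F.μ0 * eval P R) * F.m0 ^ (n + 1)) + X 1 * R', ?_, ?_⟩
  · refine IsHomogeneous.add ?_ ?_
    · refine IsHomogeneous.neg ?_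
      simpa using (isHomogeneous_C (Fin 2) (F.μ0 * eval P R)).mul (F.hom_m0.pow (n + 1))
    · rw [add_comm n 1]; exact (isHomogeneous_X k 1).mul hR'
  · rw [map_mul, eval_X, C_mul, C_mul]
    set e := C (eval P R) with he
    have h0 := F.X1_eq
    calc X 1 * R = X 1 * (e * F.m0 ^ (n + 1) + F.el * R') := by rw [← hR]
      _ = _ := by linear_combination (e * F.m0 ^ (n + 1)) * h0

lemma dec_mon (n : ℕ) : ∀ i j : ℕ, i + j = n + 1 → F.Dec n (X 0 ^ i * X 1 ^ j) := by
  induction n with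
  | zero =>
    intro i j hij
    rcases Nat.eq_zero_or_pos i with rfl | hi
    · obtain rfl : j = 1 := by omega
      refine ⟨- C F.μ0, (isHomogeneous_C (Fin 2) F.μ0).neg, ?_⟩
      have h0 := F.X1_eq
      simp only [pow_zero, one_mul, pow_one, zero_add, eval_X]
      linear_combination h0
    · obtain rfl : i = 1 := by omega
      obtain rfl : j = 0 := by omega
      refine ⟨C F.μ1, isHomogeneous_C (Fin 2) F.μ1, ?_⟩
      have h0 := F.X0_eq
      simp only [pow_zero, mul_one, pow_one, zero_add, eval_X]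
      linear_combination h0
  | succ n ih =>
    intro i j hij
    rcases Nat.eq_zero_or_pos i with rfl | hi
    · obtain ⟨j', rfl⟩ : ∃ j', j = j' + 1 := ⟨j - 1, by omega⟩
      have := F.dec_X1 (ih 0 j' (by omega))
      rwa [show (X 1 * (X 0 ^ 0 * X 1 ^ j') : MvPolynomial (Fin 2) k)
        = X 0 ^ 0 * X 1 ^ (j' + 1) by ring] at this
    · obtain ⟨i', rfl⟩ : ∃ i', i = i' + 1 := ⟨i - 1, by omega⟩
      have := F.dec_X0 (ih i' j (by omega))
      rwa [show (X 0 * (X 0 ^ i' * X 1 ^ j) : MvPolynomial (Fin 2) k)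
        = X 0 ^ (i' + 1) * X 1 ^ j by ring] at this

theorem dec {n : ℕ} (R : MvPolynomial (Fin 2) k) (hR : R.IsHomogeneous (n + 1)) :
    F.Dec n R := by
  refine hom_induction (p := F.Dec n) ?_ ?_ ?_ R hR
  · exact ⟨0, isHomogeneous_zero _ _ _, by simp⟩
  · rintro a b ⟨a', ha', ha⟩ ⟨b', hb', hb⟩
    refine ⟨a' + b', ha'.add hb', ?_⟩
    rw [map_add, C_add]
    linear_combination ha + hb
  · intro i j c hij
    obtain ⟨a', ha', ha⟩ := F.dec_mon n i j hij
    refine ⟨C c * a', by simpa using (isHomogeneous_C (Fin 2) c).mul ha', ?_⟩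
    rw [map_mul (eval P) (C c), eval_C, C_mul]
    linear_combination (C c) * ha

end Frame

/-- Lifting of a vector orthogonal to `ψ(P)` to a syzygy of `ψ` of degree `b + 1`. -/
theorem exists_syzygy {ι : Type*} [Fintype ι] {e b : ℕ} (ψ : ι → MvPolynomial (Fin 2) k)
    (hψ : ∀ j, (ψ j).IsHomogeneous e)
    (hspan : ∀ R : MvPolynomial (Fin 2) k, R.IsHomogeneous (e + b) →
      ∃ c : ι → MvPolynomial (Fin 2) k, (∀ j, (c j).IsHomogeneous b) ∧ R = ∑ j, ψ j * c j)
    {P : Fin 2 → k} (hP : P ≠ 0) (w : ι → k) (hw : ∑ j, eval P (ψ j) * w j = 0) :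
    ∃ S : ι → MvPolynomial (Fin 2) k, (∀ j, (S j).IsHomogeneous (b + 1)) ∧
      ∑ j, ψ j * S j = 0 ∧ ∀ j, eval P (S j) = w j := by
  obtain ⟨F⟩ := exists_frame hP
  set M := F.m0 ^ (b + 1) with hM
  have hMh : M.IsHomogeneous (b + 1) := by simpa using F.hom_m0.pow (b + 1)
  set R := ∑ j, ψ j * (C (w j) * M) with hR
  have hRh : R.IsHomogeneous (e + b + 1) := by
    refine IsHomogeneous.sum _ _ _ fun j _ => ?_
    rw [add_assoc]
    refine (hψ j).mul ?_
    simpa using (isHomogeneous_C (Fin 2) (w j)).mul hMh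
  have hRP : eval P R = 0 := by
    rw [hR, map_sum]
    have : ∀ j, eval P (ψ j * (C (w j) * M)) = eval P (ψ j) * w j := fun j => by
      rw [map_mul, map_mul, eval_C, hM, map_pow, F.eval_m0, one_pow, mul_one]
    rw [Finset.sum_congr rfl fun j _ => this j, hw]
  obtain ⟨R', hR'h, hR'⟩ := F.dec R hRh
  rw [hRP, C_0, zero_mul, zero_add] at hR'
  obtain ⟨c, hc, hcR⟩ := hspan R' hR'h
  refine ⟨fun j => C (w j) * M - F.el * c j, fun j => ?_, ?_, fun j => ?_⟩
  · refine IsHomogeneous.sub ?_ ?_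
    · simpa using (isHomogeneous_C (Fin 2) (w j)).mul hMh
    · rw [add_comm b 1]; exact F.hom_el.mul (hc j)
  · have h1 : ∑ j, ψ j * (C (w j) * M - F.el * c j) = R - F.el * ∑ j, ψ j * c j := by
      rw [hR, Finset.mul_sum, ← Finset.sum_sub_distrib]
      refine Finset.sum_congr rfl fun j _ => ?_
      ring
    rw [h1, ← hcR, hR', sub_self]
  · rw [map_sub, map_mul, map_mul, eval_C, hM, map_pow, F.eval_m0, F.eval_el]
    ring

end Pool.Agent.Helper61.SRC
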