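import Mathlib

/-!
Definitions for MP_e809c2_ag: smooth hypersurfaces, rational curves on them, very free rational
curves, q-bic forms.
-/

open MvPolynomial

namespace Pool.Agent.Helper61.SRC

universe u

variable {k : Type u} [Field k] {N : ℕ}

/-- The hypersurface `F = 0` in `P^N` is smooth (Jacobian criterion; the field is algebraically
closed): no point of it is a common zero of the partial derivatives of `F`. -/
def SmoothHypersurface (F : MvPolynomial (Fin (N + 1)) k) : Prop :=
  ∀ x : Fin (N + 1) → k, x ≠ 0 → eval x F = 0 → ∃ j, eval x (pderiv j F) ≠ 0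

/-- A morphism `f : P^1 → X` of degree `e > 0` to the hypersurface `X : F = 0` in `P^N`, given by
`N + 1` binary forms `f_i` of degree `e` without a common zero, with `F(f_0,...,f_N) = 0`. -/
structure RationalCurve (F : MvPolynomial (Fin (N + 1)) k) where
  /-- degree -/
  e : ℕ
  e_pos : 0 < e
  /-- the binary forms -/
  f : Fin (N + 1) → MvPolynomial (Fin 2) k
  homogeneous : ∀ i, (f i).IsHomogeneous e
  no_common_zero : ∀ P : Fin 2 → k, P ≠ 0 → ∃ i, eval P (f i) ≠ 0
  mem : aeval f F = 0

/-- The global sections of `f^* T_X (-1)`: by the Euler sequence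
`0 → O → E → f^* T_X → 0`, `E = ker ((∂_j F)(f) : O(e)^(N+1) → O(e deg F))`, and because `O(-1)` has
no cohomology, they are the vectors `v` of binary forms of degree `e - 1` with
`∑ (∂_j F)(f) v_j = 0`. -/
def RationalCurve.IsTangentField {F : MvPolynomial (Fin (N + 1)) k} (c : RationalCurve F)
    (v : Fin (N + 1) → MvPolynomial (Fin 2) k) : Prop :=
  (∀ j, (v j).IsHomogeneous (c.e - 1)) ∧ ∑ j, aeval c.f (pderiv j F) * v j = 0

/-- `f` is very free: `f^* T_X (-1)` is generated by its global sections, i.e. (every bundle on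
`P^1` is a sum of line bundles) `f^* T_X` is a sum of line bundles of positive degree, i.e. ample.
At the point `P` of `P^1` the fibre of `f^* T_X` is the space of all `w` with
`∑ (∂_j F)(f(P)) w_j = 0` modulo `f(P)`. -/
def RationalCurve.VeryFree {F : MvPolynomial (Fin (N + 1)) k} (c : RationalCurve F) : Prop :=
  ∀ P : Fin 2 → k, P ≠ 0 → ∀ w : Fin (N + 1) → k,
    ∑ j, eval (fun i => eval P (c.f i)) (pderiv j F) * w j = 0 →
      ∃ v : Fin (N + 1) → MvPolynomial (Fin 2) k, c.IsTangentField v ∧
        ∃ a : k, ∀ j, eval P (v j) = w j + a * eval P (c.f j)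

/-- The form `∑ G_ij x_i^q x_j` (for `G = 1`: the Fermat form `∑ x_i^(q+1)`). -/
noncomputable def qbic (q : ℕ) (G : Matrix (Fin (N + 1)) (Fin (N + 1)) k) :
    MvPolynomial (Fin (N + 1)) k :=
  ∑ i, ∑ j, C (G i j) * (X i ^ q * X j)

end Pool.Agent.Helper61.SRC
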