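import Mathlib

/-!
Fixed vectors of injective Frobenius-semilinear maps over an algebraically closed field, and
orthonormal bases of nondegenerate q-bic forms.
-/

open Polynomial

namespace Pool.Agent.Helper61.SRC

universe u v

section Fixed

variable {k : Type u} [Field k] [IsAlgClosed k] {σ : k →+* k} {Q : ℕ}

/-- The chain of additive polynomials used to solve for a fixed vector. -/
noncomputable def chain (Q : ℕ) (a : ℕ → k) : ℕ → k[X]
  | 0 => C (a 0) * X ^ Q
  | (i + 1) => (chain Q a i) ^ Q + C (a (i + 1)) * X ^ Q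

omit [IsAlgClosed k] in
lemma sq_dvd_chain (hQ : 2 ≤ Q) (a : ℕ → k) (i : ℕ) : X ^ 2 ∣ chain Q a i := by
  induction i with
  | zero => exact Dvd.dvd.mul_left (pow_dvd_pow X hQ) _
  | succ i ih =>
    refine dvd_add ?_ (Dvd.dvd.mul_left (pow_dvd_pow X hQ) _)
    exact ih.trans (dvd_pow_self _ (by omega))

omit [IsAlgClosed k] in
lemma chain_ne_zero (hQ : 2 ≤ Q) (a : ℕ → k) (i : ℕ) (h : ∃ j, j ≤ i ∧ a j ≠ 0) :
    chain Q a i ≠ 0 := by
  induction i with
  | zero =>
    obtain ⟨j, hj, hj'⟩ := h
    obtain rfl : j = 0 := by omega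
    simp only [chain]
    exact mul_ne_zero (C_ne_zero.mpr hj') (pow_ne_zero _ X_ne_zero)
  | succ i ih =>
    by_cases hi : chain Q a i = 0
    · have hlast : a (i + 1) ≠ 0 := by
        intro h0
        apply ih _ hi
        obtain ⟨j, hj, hj'⟩ := h
        refine ⟨j, ?_, hj'⟩
        rcases Nat.lt_or_ge j (i + 1) with h1 | h1
        · omega
        · exact absurd (by rw [show j = i + 1 by omega]; exact h0) hj'
      simp only [chain, hi]
      rw [zero_pow (by omega), zero_add]
      exact mul_ne_zero (C_ne_zero.mpr hlast) (pow_ne_zero _ X_ne_zero)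
    · simp only [chain]
      intro h0
      have hd : 2 ≤ (chain Q a i).natDegree := by
        have := natDegree_le_of_dvd (sq_dvd_chain hQ a i) hi
        simpa using this
      have h1 : (chain Q a i) ^ Q = - (C (a (i + 1)) * X ^ Q) := eq_neg_of_add_eq_zero_left h0
      have h2 : ((chain Q a i) ^ Q).natDegree ≤ Q := by
        rw [h1, natDegree_neg]
        exact natDegree_C_mul_X_pow_le _ _
      rw [natDegree_pow] at h2
      nlinarith

omit [IsAlgClosed k] in
lemma eval_chain_succ (a : ℕ → k) (i : ℕ) (c : k) :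
    (chain Q a (i + 1)).eval c = (chain Q a i).eval c ^ Q + a (i + 1) * c ^ Q := by
  simp [chain]

omit [IsAlgClosed k] in
lemma eval_chain_zero (a : ℕ → k) (c : k) :
    (chain Q a 0).eval c = a 0 * c ^ Q := by
  simp [chain]

lemma exists_root_chain (hQ : 2 ≤ Q) (a : ℕ → k) (i : ℕ) (h : ∃ j, j ≤ i ∧ a j ≠ 0) :
    ∃ c : k, c ≠ 0 ∧ (chain Q a i).eval c = c := by
  obtain ⟨T, hT⟩ := sq_dvd_chain hQ a i
  have hne := chain_ne_zero hQ a i h
  have hT0 : T ≠ 0 := by
    rintro rfl
    exact hne (by rw [hT, mul_zero])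
  have hdeg : (X * T - 1).degree ≠ 0 := by
    have h1 : (X * T - 1 : k[X]).natDegree = T.natDegree + 1 := by
      rw [show (X * T - 1 : k[X]) = X * T - C 1 by simp, natDegree_sub_C, natDegree_X_mul hT0]
    intro h0
    have := natDegree_eq_zero_iff_degree_le_zero.mpr h0.le
    omega
  obtain ⟨c, hc⟩ := IsAlgClosed.exists_root _ hdeg
  have hc' : c * T.eval c = 1 := by
    have : (X * T - 1 : k[X]).eval c = 0 := hc
    simp only [eval_sub, eval_mul, eval_X, eval_one] at this
    linear_combination this
  refine ⟨c, ?_, ?_⟩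
  · rintro rfl
    simp at hc'
  · rw [hT]
    simp only [eval_mul, eval_pow, eval_X]
    linear_combination c * hc'

variable {V : Type v} [AddCommGroup V] [Module k V] [FiniteDimensional k V]

theorem exists_fixed (hQ : 2 ≤ Q) (hσ : ∀ x, σ x = x ^ Q) [Nontrivial V]
    (φ : V →ₛₗ[σ] V) (hφ : Function.Injective φ) : ∃ v : V, v ≠ 0 ∧ φ v = v := by
  classical
  obtain ⟨w, hw⟩ := exists_ne (0 : V)
  set W : ℕ → V := fun i => φ^[i] w with hW
  have hWs : ∀ i, W (i + 1) = φ (W i) := fun i => by
    simp only [hW]; rw [Function.iterate_succ_apply']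
  have hW0 : ∀ i, W i ≠ 0 := by
    intro i
    induction i with
    | zero => simpa [hW] using hw
    | succ i ih =>
      rw [hWs]
      intro h0
      exact ih (hφ (by rw [h0, map_zero]))
  have hex : ∃ m, ¬ LinearIndependent k (fun i : Fin (m + 1) => W i) := by
    refine ⟨Module.finrank k V, fun h => ?_⟩
    have := h.fintype_card_le_finrank
    simp at this
  obtain ⟨m, hm, hmin⟩ : ∃ m, ¬ LinearIndependent k (fun i : Fin (m + 1) => W i) ∧
      ∀ m', m' < m → LinearIndependent k (fun i : Fin (m' + 1) => W i) := by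
    refine ⟨Nat.find hex, Nat.find_spec hex, fun m' hm' => ?_⟩
    exact not_not.mp (Nat.find_min hex hm')
  have hm0 : m ≠ 0 := by
    rintro rfl
    apply hm
    have : Unique (Fin (0 + 1)) := inferInstanceAs (Unique (Fin 1))
    rw [linearIndependent_unique_iff]
    exact hW0 _
  obtain ⟨m', rfl⟩ := Nat.exists_eq_succ_of_ne_zero hm0
  have hli := hmin m' (by omega)
  have hspan : W (m' + 1) ∈ Submodule.span k (Set.range (fun i : Fin (m' + 1) => W i)) := by
    by_contra hns
    apply hm
    have h2 := (linearIndependent_finSnoc (K := k) (v := fun i : Fin (m' + 1) => W i)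
      (x := W (m' + 1))).mpr ⟨hli, hns⟩
    convert h2 using 1
    funext i
    refine Fin.lastCases ?_ (fun j => ?_) i
    · simp
    · simp
  rw [Submodule.mem_span_range_iff_exists_fun] at hspan
  obtain ⟨a0, ha0⟩ := hspan
  set a : ℕ → k := fun i => if h : i < m' + 1 then a0 ⟨i, h⟩ else 0 with ha
  have hsum : W (m' + 1) = ∑ i ∈ Finset.range (m' + 1), a i • W i := by
    rw [← ha0, Finset.sum_range]
    refine Finset.sum_congr rfl fun i _ => ?_
    simp only [ha]
    rw [dif_pos i.2]
  have hane : ∃ j, j ≤ m' ∧ a j ≠ 0 := by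
    by_contra hcon
    push Not at hcon
    apply hW0 (m' + 1)
    rw [hsum]
    refine Finset.sum_eq_zero fun i hi => ?_
    rw [hcon i (by have := Finset.mem_range.mp hi; omega), zero_smul]
  obtain ⟨c, hc0, hc⟩ := exists_root_chain hQ a m' hane
  set cc : ℕ → k := fun i => (chain Q a i).eval c with hcc
  refine ⟨∑ i ∈ Finset.range (m' + 1), cc i • W i, ?_, ?_⟩
  · intro h0
    rw [Finset.sum_range] at h0
    have h1 := Fintype.linearIndependent_iff.mp hli (fun i => cc i) h0 (Fin.last m')
    simp only [Fin.val_last] at h1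
    exact hc0 (by rw [← hc]; exact h1)
  · have e1 : φ (∑ i ∈ Finset.range (m' + 1), cc i • W i)
        = ∑ i ∈ Finset.range (m' + 1), (cc i) ^ Q • W (i + 1) := by
      rw [map_sum]
      refine Finset.sum_congr rfl fun i _ => ?_
      rw [LinearMap.map_smulₛₗ, hσ, hWs]
    rw [e1, Finset.sum_range_succ, hsum, Finset.smul_sum]
    have hccm : cc m' = c := hc
    rw [hccm]
    rw [Finset.sum_range_succ' (fun i => c ^ Q • a i • W i),
      Finset.sum_range_succ' (fun i => cc i • W i)]
    rw [← add_assoc, ← Finset.sum_add_distrib]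
    congr 1
    · refine Finset.sum_congr rfl fun i _ => ?_
      simp only [hcc]
      rw [eval_chain_succ, smul_smul, ← add_smul]
      ring_nf
    · simp only [hcc]
      rw [eval_chain_zero, smul_smul]
      ring_nf

lemma exists_sub_pow (hQ : 2 ≤ Q) (c : k) : ∃ a : k, a = c + a ^ Q := by
  have hdeg : (X ^ Q - X + C c : k[X]).degree ≠ 0 := by
    have h1 : (X ^ Q - X + C c : k[X]).natDegree = Q := by
      rw [natDegree_add_C]
      rw [natDegree_sub_eq_left_of_natDegree_lt]
      · simp
      · simp; omega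
    intro h0
    have := natDegree_eq_zero_iff_degree_le_zero.mpr h0.le
    omega
  obtain ⟨a, ha⟩ := IsAlgClosed.exists_root _ hdeg
  refine ⟨a, ?_⟩
  have : (X ^ Q - X + C c : k[X]).eval a = 0 := ha
  simp only [eval_add, eval_sub, eval_pow, eval_X, eval_C] at this
  linear_combination -this

end Fixed

section Span

variable {k : Type u} [Field k] [IsAlgClosed k] {σ : k →+* k} {Q : ℕ}

theorem span_fixed (hQ : 2 ≤ Q) (hσ : ∀ x, σ x = x ^ Q) (n : ℕ) :
    ∀ (V : Type v) [AddCommGroup V] [Module k V] [FiniteDimensional k V],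
      Module.finrank k V = n → ∀ (φ : V →ₛₗ[σ] V), Function.Injective φ →
        Submodule.span k {v : V | φ v = v} = ⊤ := by
  induction n with
  | zero =>
    intro V _ _ _ hn φ _
    have : Subsingleton V := Module.finrank_zero_iff.mp hn
    exact Subsingleton.elim _ _
  | succ n ih =>
    intro V _ _ _ hn φ hφ
    have hnt : Nontrivial V := Module.nontrivial_of_finrank_pos (R := k) (by omega)
    obtain ⟨v0, hv0, hfix⟩ := exists_fixed hQ hσ φ hφ
    set S : Submodule k V := Submodule.span k {v0} with hS
    have hle : S ≤ S.comap φ := by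
      rw [hS, Submodule.span_le]
      intro x hx
      rw [Set.mem_singleton_iff] at hx
      subst hx
      show φ x ∈ Submodule.span k {x}
      rw [hfix]
      exact Submodule.mem_span_singleton_self x
    set ψ : V ⧸ S →ₛₗ[σ] V ⧸ S := S.mapQ S φ hle with hψ
    have hinj : Function.Injective ψ := by
      rw [injective_iff_map_eq_zero]
      intro x hx
      obtain ⟨y, rfl⟩ := Submodule.Quotient.mk_surjective S x
      rw [hψ, Submodule.mapQ_apply, Submodule.Quotient.mk_eq_zero] at hx
      rw [Submodule.Quotient.mk_eq_zero]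
      rw [hS, Submodule.mem_span_singleton] at hx
      obtain ⟨c, hc⟩ := hx
      obtain ⟨d, hd⟩ := IsAlgClosed.exists_pow_nat_eq c (n := Q) (by omega)
      have : φ (d • v0) = φ y := by
        rw [LinearMap.map_smulₛₗ, hσ, hd, hfix, hc]
      rw [hS, Submodule.mem_span_singleton]
      exact ⟨d, hφ this⟩
    have hfr : Module.finrank k (V ⧸ S) = n := by
      have h1 := S.finrank_quotient_add_finrank
      have h2 : Module.finrank k S = 1 := finrank_span_singleton hv0
      omega
    have hspan := ih (V ⧸ S) hfr ψ hinj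
    set T : Submodule k V := Submodule.span k {v : V | φ v = v} with hT
    have hST : S ≤ T := by
      rw [hS, Submodule.span_le]
      intro x hx
      rw [Set.mem_singleton_iff] at hx
      subst hx
      exact Submodule.subset_span hfix
    have hmap : T.map S.mkQ = ⊤ := by
      rw [eq_top_iff, ← hspan, Submodule.span_le]
      intro x hx
      obtain ⟨y, rfl⟩ := Submodule.Quotient.mk_surjective S x
      have hx' : ψ (Submodule.Quotient.mk y) = Submodule.Quotient.mk y := hx
      rw [hψ, Submodule.mapQ_apply, Submodule.Quotient.eq, hS,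
        Submodule.mem_span_singleton] at hx'
      obtain ⟨c, hc⟩ := hx'
      obtain ⟨a, ha⟩ := exists_sub_pow (k := k) hQ c
      have hfy : φ (y + a • v0) = y + a • v0 := by
        rw [map_add, LinearMap.map_smulₛₗ, hσ, hfix]
        have h3 : φ y = y + c • v0 := by rw [hc]; abel
        rw [h3, add_assoc, ← add_smul, ← ha]
      refine ⟨y + a • v0, Submodule.subset_span hfy, ?_⟩
      rw [Submodule.mkQ_apply, Submodule.Quotient.eq]
      rw [hS, Submodule.mem_span_singleton]
      exact ⟨a, by abel⟩
    rw [eq_top_iff]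
    intro x _
    have hx : S.mkQ x ∈ T.map S.mkQ := by rw [hmap]; trivial
    obtain ⟨y, hy, hxy⟩ := hx
    rw [Submodule.mkQ_apply, Submodule.mkQ_apply, Submodule.Quotient.eq] at hxy
    have := T.sub_mem hy (hST hxy)
    simpa using this

end Span

end Pool.Agent.Helper61.SRC
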