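import Pool.Agent.Helper61.SRC.Forms

/-!
The explicit space of binary forms of degree q(q-1)+1: generators, relation, spanning property.
-/

open MvPolynomial

namespace Pool.Agent.Helper61.SRC

universe u

/-- What is needed from the space of forms: a family `B` of `q + 2` forms of degree
`q (q - 1) + 1`, an injective endomorphism `T` (matrix `T a b`) with
`∑ T a b * (B a) ^ q * B b = 0`, and the products of the `B a` with the forms of degree `q - 2`
give all forms of degree `(q + 1) (q - 1)`. -/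
structure Model (k : Type u) [Field k] (q : ℕ) (ι : Type) [Fintype ι] where
  B : ι → MvPolynomial (Fin 2) k
  T : ι → ι → k
  card : Fintype.card ι = q + 2
  hom : ∀ a, (B a).IsHomogeneous (q * (q - 1) + 1)
  inj : ∀ c : ι → k, (∀ a, ∑ b, T a b * c b = 0) → c = 0
  rel : ∑ a, (B a) ^ q * ∑ b, C (T a b) * B b = 0
  span : ∀ R : MvPolynomial (Fin 2) k, R.IsHomogeneous ((q + 1) * (q - 1)) →
      ∃ c : ι → MvPolynomial (Fin 2) k, (∀ a, (c a).IsHomogeneous (q - 2)) ∧
        R = ∑ a, B a * c a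

variable {k : Type u} [Field k]

/-- Span predicate. -/
def Sp {ι : Type} [Fintype ι] (B : ι → MvPolynomial (Fin 2) k) (m : ℕ)
    (R : MvPolynomial (Fin 2) k) : Prop :=
  ∃ c : ι → MvPolynomial (Fin 2) k, (∀ a, (c a).IsHomogeneous m) ∧ R = ∑ a, B a * c a

section Sp

variable {ι : Type} [Fintype ι] {B : ι → MvPolynomial (Fin 2) k} {m : ℕ}

lemma Sp.zero : Sp B m 0 := ⟨fun _ => 0, fun _ => isHomogeneous_zero _ _ _, by simp⟩

lemma Sp.add {R S : MvPolynomial (Fin 2) k} (hR : Sp B m R) (hS : Sp B m S) :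
    Sp B m (R + S) := by
  obtain ⟨c, hc, rfl⟩ := hR
  obtain ⟨d, hd, rfl⟩ := hS
  refine ⟨fun a => c a + d a, fun a => (hc a).add (hd a), ?_⟩
  rw [← Finset.sum_add_distrib]
  exact Finset.sum_congr rfl fun a _ => by ring

lemma Sp.smul {R : MvPolynomial (Fin 2) k} (r : k) (hR : Sp B m R) : Sp B m (C r * R) := by
  obtain ⟨c, hc, rfl⟩ := hR
  refine ⟨fun a => C r * c a, fun a => by simpa using (isHomogeneous_C (Fin 2) r).mul (hc a), ?_⟩
  rw [Finset.mul_sum]
  exact Finset.sum_congr rfl fun a _ => by ring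

lemma Sp.neg {R : MvPolynomial (Fin 2) k} (hR : Sp B m R) : Sp B m (-R) := by
  have := hR.smul (-1)
  simpa using this

lemma Sp.gen [DecidableEq ι] (a : ι) {c : MvPolynomial (Fin 2) k} (hc : c.IsHomogeneous m) :
    Sp B m (B a * c) := by
  refine ⟨fun b => if b = a then c else 0, fun b => ?_, ?_⟩
  · show (if b = a then c else 0).IsHomogeneous m
    split_ifs
    · exact hc
    · exact isHomogeneous_zero _ _ _
  · simp

end Sp

/-! ### the case `q = n + 3` -/

/-- index type: `inl r`, `r < n + 3`, `inr 0`, `inr 1` -/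
abbrev Idx (n : ℕ) := Fin (n + 3) ⊕ Fin 2

/-- the forms -/
noncomputable def BB (k : Type u) [Field k] (n : ℕ) : Idx n → MvPolynomial (Fin 2) k
  | Sum.inl r =>
    if (r : ℕ) ≤ n then (X 0 ^ (n + 3)) ^ (r : ℕ) * (X 1 ^ (n + 3)) ^ (n + 1 - (r : ℕ)) *
        (X 1 ^ (n + 3) * X 0 - X 0 ^ (n + 3) * X 1)
    else if (r : ℕ) = n + 1 then (X 0 ^ (n + 3)) ^ (n + 1) * X 1 ^ (n + 3) * X 0
    else (X 0 ^ (n + 3)) ^ (n + 2) * X 0
  | Sum.inr i => if i = 0 then (X 0 ^ (n + 3)) ^ (n + 2) * X 1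
    else (X 1 ^ (n + 3)) ^ (n + 2) * X 1

/-- the matrix -/
noncomputable def TT (k : Type u) [Field k] (n : ℕ) : Idx n → Idx n → k
  | Sum.inl r =>
    if h : (r : ℕ) < n then Pi.single (Sum.inl ⟨n - (r : ℕ), by omega⟩) 1
    else if (r : ℕ) = n then Pi.single (Sum.inl ⟨0, by omega⟩) 1 +
      Pi.single (Sum.inl ⟨n + 2, by omega⟩) 1
    else if (r : ℕ) = n + 1 then Pi.single (Sum.inl ⟨n + 1, by omega⟩) 1 +
      Pi.single (Sum.inl ⟨n + 2, by omega⟩) 1 - Pi.single (Sum.inr 1) 1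
    else - Pi.single (Sum.inr 1) 1
  | Sum.inr i => if i = 0 then - Pi.single (Sum.inl ⟨0, by omega⟩) 1
    else Pi.single (Sum.inr 0) 1 - Pi.single (Sum.inl ⟨n + 1, by omega⟩) 1

lemma sum_single_mul {ι : Type} [Fintype ι] [DecidableEq ι] (a : ι) (c : ι → k) :
    ∑ b, (Pi.single a (1 : k) : ι → k) b * c b = c a := by
  simp [Pi.single_apply]

lemma sum_C_single_mul {ι : Type} [Fintype ι] [DecidableEq ι] (a : ι)
    (c : ι → MvPolynomial (Fin 2) k) :
    ∑ b, C ((Pi.single a (1 : k) : ι → k) b) * c b = c a := by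
  simp [Pi.single_apply, apply_ite (C : k → MvPolynomial (Fin 2) k)]

section T

variable {n : ℕ} (c : Idx n → k) (D : Idx n → MvPolynomial (Fin 2) k)

lemma TT_lt (r : Fin (n + 3)) (h : (r : ℕ) < n) :
    ∑ b, TT k n (Sum.inl r) b * c b = c (Sum.inl ⟨n - (r : ℕ), by omega⟩) := by
  simp only [TT, dif_pos h]
  exact sum_single_mul _ _

lemma TT_n (r : Fin (n + 3)) (h : (r : ℕ) = n) :
    ∑ b, TT k n (Sum.inl r) b * c b
      = c (Sum.inl ⟨0, by omega⟩) + c (Sum.inl ⟨n + 2, by omega⟩) := by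
  simp only [TT, dif_neg (show ¬ (r : ℕ) < n by omega), if_pos h, Pi.add_apply, add_mul,
    Finset.sum_add_distrib, sum_single_mul]

lemma TT_n1 (r : Fin (n + 3)) (h : (r : ℕ) = n + 1) :
    ∑ b, TT k n (Sum.inl r) b * c b
      = c (Sum.inl ⟨n + 1, by omega⟩) + c (Sum.inl ⟨n + 2, by omega⟩) - c (Sum.inr 1) := by
  simp only [TT, dif_neg (show ¬ (r : ℕ) < n by omega), if_neg (show ¬ (r : ℕ) = n by omega),
    if_pos h, Pi.add_apply, Pi.sub_apply, add_mul, sub_mul,
    Finset.sum_add_distrib, Finset.sum_sub_distrib, sum_single_mul]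

lemma TT_n2 (r : Fin (n + 3)) (h : (r : ℕ) = n + 2) :
    ∑ b, TT k n (Sum.inl r) b * c b = - c (Sum.inr 1) := by
  simp only [TT, dif_neg (show ¬ (r : ℕ) < n by omega), if_neg (show ¬ (r : ℕ) = n by omega),
    if_neg (show ¬ (r : ℕ) = n + 1 by omega), Pi.neg_apply, neg_mul, Finset.sum_neg_distrib,
    sum_single_mul]

lemma TT_g : ∑ b, TT k n (Sum.inr 0) b * c b = - c (Sum.inl ⟨0, by omega⟩) := by
  simp only [TT, if_true, Pi.neg_apply, neg_mul, Finset.sum_neg_distrib,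
    sum_single_mul]

lemma TT_s : ∑ b, TT k n (Sum.inr 1) b * c b
    = c (Sum.inr 0) - c (Sum.inl ⟨n + 1, by omega⟩) := by
  simp only [TT, if_neg (show ¬ (1 : Fin 2) = 0 by decide), Pi.sub_apply, sub_mul,
    Finset.sum_sub_distrib, sum_single_mul]

lemma CT_lt (r : Fin (n + 3)) (h : (r : ℕ) < n) :
    ∑ b, C (TT k n (Sum.inl r) b) * D b = D (Sum.inl ⟨n - (r : ℕ), by omega⟩) := by
  simp only [TT, dif_pos h]
  exact sum_C_single_mul _ _

lemma CT_n (r : Fin (n + 3)) (h : (r : ℕ) = n) :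
    ∑ b, C (TT k n (Sum.inl r) b) * D b
      = D (Sum.inl ⟨0, by omega⟩) + D (Sum.inl ⟨n + 2, by omega⟩) := by
  simp only [TT, dif_neg (show ¬ (r : ℕ) < n by omega), if_pos h, Pi.add_apply, C_add, add_mul,
    Finset.sum_add_distrib, sum_C_single_mul]

lemma CT_n1 (r : Fin (n + 3)) (h : (r : ℕ) = n + 1) :
    ∑ b, C (TT k n (Sum.inl r) b) * D b
      = D (Sum.inl ⟨n + 1, by omega⟩) + D (Sum.inl ⟨n + 2, by omega⟩) - D (Sum.inr 1) := by
  simp only [TT, dif_neg (show ¬ (r : ℕ) < n by omega), if_neg (show ¬ (r : ℕ) = n by omega),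
    if_pos h, Pi.add_apply, Pi.sub_apply, C_add, C_sub, add_mul, sub_mul,
    Finset.sum_add_distrib, Finset.sum_sub_distrib, sum_C_single_mul]

lemma CT_n2 (r : Fin (n + 3)) (h : (r : ℕ) = n + 2) :
    ∑ b, C (TT k n (Sum.inl r) b) * D b = - D (Sum.inr 1) := by
  simp only [TT, dif_neg (show ¬ (r : ℕ) < n by omega), if_neg (show ¬ (r : ℕ) = n by omega),
    if_neg (show ¬ (r : ℕ) = n + 1 by omega), Pi.neg_apply, C_neg, neg_mul,
    Finset.sum_neg_distrib, sum_C_single_mul]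

lemma CT_g : ∑ b, C (TT k n (Sum.inr 0) b) * D b = - D (Sum.inl ⟨0, by omega⟩) := by
  simp only [TT, if_true, Pi.neg_apply, C_neg, neg_mul, Finset.sum_neg_distrib,
    sum_C_single_mul]

lemma CT_s : ∑ b, C (TT k n (Sum.inr 1) b) * D b
    = D (Sum.inr 0) - D (Sum.inl ⟨n + 1, by omega⟩) := by
  simp only [TT, if_neg (show ¬ (1 : Fin 2) = 0 by decide), Pi.sub_apply, C_sub, sub_mul,
    Finset.sum_sub_distrib, sum_C_single_mul]

theorem TT_inj (hc : ∀ a, ∑ b, TT k n a b * c b = 0) : c = 0 := by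
  have hs : c (Sum.inr 1) = 0 := by
    have := hc (Sum.inl ⟨n + 2, by omega⟩)
    rw [TT_n2 c _ rfl] at this
    simpa using this
  have h0 : c (Sum.inl ⟨0, by omega⟩) = 0 := by
    have := hc (Sum.inr 0)
    rw [TT_g c] at this
    simpa using this
  have h2 : c (Sum.inl ⟨n + 2, by omega⟩) = 0 := by
    have := hc (Sum.inl ⟨n, by omega⟩)
    rw [TT_n c _ rfl, h0, zero_add] at this
    exact this
  have h1 : c (Sum.inl ⟨n + 1, by omega⟩) = 0 := by
    have := hc (Sum.inl ⟨n + 1, by omega⟩)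
    rw [TT_n1 c _ rfl, h2, hs, add_zero, sub_zero] at this
    exact this
  have hg : c (Sum.inr 0) = 0 := by
    have := hc (Sum.inr 1)
    rw [TT_s c, h1, sub_zero] at this
    exact this
  funext a
  rcases a with r | i
  · obtain ⟨r, hr⟩ := r
    rcases Nat.eq_zero_or_pos r with rfl | hpos
    · exact h0
    · rcases Nat.lt_or_ge n r with h | h
      · rcases Nat.lt_or_ge (n + 1) r with h' | h'
        · obtain rfl : r = n + 2 := by omega
          exact h2
        · obtain rfl : r = n + 1 := by omega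
          exact h1
      · have := hc (Sum.inl ⟨n - r, by omega⟩)
        rw [TT_lt c _ (show n - r < n by omega)] at this
        simp only [show n - (n - r) = r by omega] at this
        exact this
  · fin_cases i
    · exact hg
    · exact hs

end T

section B

variable {n : ℕ}

lemma BB_le (r : Fin (n + 3)) (h : (r : ℕ) ≤ n) : BB k n (Sum.inl r)
    = (X 0 ^ (n + 3)) ^ (r : ℕ) * (X 1 ^ (n + 3)) ^ (n + 1 - (r : ℕ)) *
        (X 1 ^ (n + 3) * X 0 - X 0 ^ (n + 3) * X 1) := by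
  simp only [BB, if_pos h]

lemma BB_n1 (r : Fin (n + 3)) (h : (r : ℕ) = n + 1) : BB k n (Sum.inl r)
    = (X 0 ^ (n + 3)) ^ (n + 1) * X 1 ^ (n + 3) * X 0 := by
  simp only [BB, if_neg (show ¬ (r : ℕ) ≤ n by omega), if_pos h]

lemma BB_n2 (r : Fin (n + 3)) (h : (r : ℕ) = n + 2) : BB k n (Sum.inl r)
    = (X 0 ^ (n + 3)) ^ (n + 2) * X 0 := by
  simp only [BB, if_neg (show ¬ (r : ℕ) ≤ n by omega), if_neg (show ¬ (r : ℕ) = n + 1 by omega)]

lemma BB_g : BB k n (Sum.inr 0) = (X 0 ^ (n + 3)) ^ (n + 2) * X 1 := by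
  simp only [BB, if_true]

lemma BB_s : BB k n (Sum.inr 1) = (X 1 ^ (n + 3)) ^ (n + 2) * X 1 := by
  simp only [BB, if_neg (show ¬ (1 : Fin 2) = 0 by decide)]

lemma hom_mon' {a b c : ℕ} (h : a + b = c) :
    (X 0 ^ a * X 1 ^ b : MvPolynomial (Fin 2) k).IsHomogeneous c := by
  rw [← h]; exact isHomogeneous_mon a b

theorem BB_hom (a : Idx n) : (BB k n a).IsHomogeneous ((n + 3) * (n + 3 - 1) + 1) := by
  have e0 : (n + 3) * (n + 3 - 1) + 1 = (n + 3) * (n + 2) + 1 := rfl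
  rw [e0]
  rcases a with r | i
  · rcases Nat.lt_or_ge n r with h | h
    · rcases Nat.lt_or_ge (n + 1) r with h' | h'
      · rw [BB_n2 r (by omega)]
        have : ((X 0 ^ (n + 3)) ^ (n + 2) * X 0 : MvPolynomial (Fin 2) k)
          = X 0 ^ ((n + 3) * (n + 2) + 1) * X 1 ^ 0 := by ring
        rw [this]; exact hom_mon' rfl
      · rw [BB_n1 r (by omega)]
        have : ((X 0 ^ (n + 3)) ^ (n + 1) * X 1 ^ (n + 3) * X 0 : MvPolynomial (Fin 2) k)
          = X 0 ^ ((n + 3) * (n + 1) + 1) * X 1 ^ (n + 3) := by ring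
        rw [this]; exact hom_mon' (by ring)
    · rw [BB_le r h]
      obtain ⟨m, hm⟩ : ∃ m, n = r + m := ⟨n - r, by omega⟩
      have e1 : n + 1 - (r : ℕ) = m + 1 := by omega
      rw [e1]
      have : ((X 0 ^ (n + 3)) ^ (r : ℕ) * (X 1 ^ (n + 3)) ^ (m + 1) *
        (X 1 ^ (n + 3) * X 0 - X 0 ^ (n + 3) * X 1) : MvPolynomial (Fin 2) k)
          = X 0 ^ ((n + 3) * r + 1) * X 1 ^ ((n + 3) * (m + 2))
            - X 0 ^ ((n + 3) * (r + 1)) * X 1 ^ ((n + 3) * (m + 1) + 1) := by ring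
      rw [this]
      have e2 : (n + 3) * (n + 2) = (n + 3) * (r : ℕ) + (n + 3) * (m + 2) := by
        rw [← mul_add]; congr 1; omega
      refine IsHomogeneous.sub (hom_mon' ?_) (hom_mon' ?_)
      · rw [e2]; ring
      · rw [e2]; ring
  · fin_cases i
    · show (BB k n (Sum.inr 0)).IsHomogeneous _
      rw [BB_g]
      have : ((X 0 ^ (n + 3)) ^ (n + 2) * X 1 : MvPolynomial (Fin 2) k)
          = X 0 ^ ((n + 3) * (n + 2)) * X 1 ^ 1 := by ring
      rw [this]; exact hom_mon' (by ring)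
    · show (BB k n (Sum.inr 1)).IsHomogeneous _
      rw [BB_s]
      have : ((X 1 ^ (n + 3)) ^ (n + 2) * X 1 : MvPolynomial (Fin 2) k)
          = X 0 ^ 0 * X 1 ^ ((n + 3) * (n + 2) + 1) := by ring
      rw [this]; exact hom_mon' (by ring)

/-- algebraic identity behind the relation -/
lemma rel_identity {A : Type*} [CommRing A] (n : ℕ) (s t x x' y y' S : A)
    (hx : x ^ (n + 3) = y) (hx' : x' ^ (n + 3) = y')
    (hS : S * (y' * x - y * x') = (y' * x) ^ (n + 1) - (y * x') ^ (n + 1)) :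
    (y' * x - y * x') * (x' * s - x * t) * (y' * x') * S
      + y ^ n * y' * (y' * x - y * x') * (x ^ (n + 2) * s)
      + y ^ (n + 1) * y' * x * (x ^ (n + 1) * x' * s + x ^ (n + 2) * s - x' ^ (n + 2) * t)
      + y ^ (n + 2) * x * (- (x' ^ (n + 2) * t))
      + (y ^ (n + 2) * x' * (- (x' ^ (n + 1) * (x' * s - x * t)))
        + y' ^ (n + 2) * x' * (x ^ (n + 2) * t - x ^ (n + 1) * x' * s)) = 0 := by
  linear_combination ((x' * s - x * t) * (y' * x')) * hS
    + (s * (y ^ n * y' ^ 2 + y ^ (n + 1) * y')) * hx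
    - (s * (y' * y ^ (n + 1) + y ^ (n + 2))) * hx'

theorem BB_rel (hq : ∀ a b : MvPolynomial (Fin 2) k, (a - b) ^ (n + 3) = a ^ (n + 3) - b ^ (n + 3)) :
    ∑ a, (BB k n a) ^ (n + 3) * ∑ b, C (TT k n a b) * BB k n b = 0 := by
  set s : MvPolynomial (Fin 2) k := X 0 with hs
  set t : MvPolynomial (Fin 2) k := X 1 with ht
  set x := s ^ (n + 3) with hx
  set x' := t ^ (n + 3) with hx'
  set y := x ^ (n + 3) with hy
  set y' := x' ^ (n + 3) with hy'
  have hb : ∀ r : Fin (n + 3), (r : ℕ) ≤ n → BB k n (Sum.inl r)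
      = x ^ (r : ℕ) * x' ^ (n + 1 - (r : ℕ)) * (x' * s - x * t) := fun r hr => BB_le r hr
  have hbq : ∀ r : Fin (n + 3), (r : ℕ) ≤ n → (BB k n (Sum.inl r)) ^ (n + 3)
      = y ^ (r : ℕ) * y' ^ (n + 1 - (r : ℕ)) * (y' * x - y * x') := fun r hr => by
    rw [hb r hr, mul_pow, mul_pow, hq, mul_pow, mul_pow, ← hx, ← hx', ← pow_mul x,
      ← pow_mul x', mul_comm (r : ℕ), mul_comm (n + 1 - (r : ℕ)), pow_mul, pow_mul, ← hy, ← hy']
  have hb1 : ∀ r : Fin (n + 3), (r : ℕ) = n + 1 → BB k n (Sum.inl r) = x ^ (n + 1) * x' * s :=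
    fun r hr => BB_n1 r hr
  have hb1q : ∀ r : Fin (n + 3), (r : ℕ) = n + 1 → (BB k n (Sum.inl r)) ^ (n + 3)
      = y ^ (n + 1) * y' * x := fun r hr => by
    rw [hb1 r hr, mul_pow, mul_pow, ← hx, ← pow_mul x, mul_comm (n + 1), pow_mul, ← hy, ← hy']
  have hb2 : ∀ r : Fin (n + 3), (r : ℕ) = n + 2 → BB k n (Sum.inl r) = x ^ (n + 2) * s :=
    fun r hr => BB_n2 r hr
  have hb2q : ∀ r : Fin (n + 3), (r : ℕ) = n + 2 → (BB k n (Sum.inl r)) ^ (n + 3)
      = y ^ (n + 2) * x := fun r hr => by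
    rw [hb2 r hr, mul_pow, ← hx, ← pow_mul x, mul_comm (n + 2), pow_mul, ← hy]
  have hbg : BB k n (Sum.inr 0) = x ^ (n + 2) * t := BB_g
  have hbgq : (BB k n (Sum.inr 0)) ^ (n + 3) = y ^ (n + 2) * x' := by
    rw [hbg, mul_pow, ← hx', ← pow_mul x, mul_comm (n + 2), pow_mul, ← hy]
  have hbs : BB k n (Sum.inr 1) = x' ^ (n + 2) * t := BB_s
  have hbsq : (BB k n (Sum.inr 1)) ^ (n + 3) = y' ^ (n + 2) * x' := by
    rw [hbs, mul_pow, ← hx', ← pow_mul x', mul_comm (n + 2), pow_mul, ← hy']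
  set S := ∑ i ∈ Finset.range (n + 1), (y * x') ^ i * (y' * x) ^ (n - i) with hS
  have hS' : S * (y' * x - y * x') = (y' * x) ^ (n + 1) - (y * x') ^ (n + 1) := by
    have := geom_sum₂_mul (y * x') (y' * x) (n + 1)
    simp only [Nat.add_sub_cancel] at this
    rw [← hS] at this
    linear_combination -this
  have hid := rel_identity n s t x x' y y' S hy.symm hy'.symm hS'
  rw [Fintype.sum_sum_type, Fin.sum_univ_two, Fin.sum_univ_castSucc, Fin.sum_univ_castSucc,
    Fin.sum_univ_castSucc]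
  rw [CT_g, CT_s, CT_n2 _ (Fin.last (n + 2)) (by simp),
    CT_n1 _ (Fin.castSucc (Fin.last (n + 1))) (by simp),
    CT_n _ (Fin.castSucc (Fin.castSucc (Fin.last n))) (by simp)]
  rw [hbgq, hbsq, hb2q (Fin.last (n + 2)) (by simp),
    hb1q (Fin.castSucc (Fin.last (n + 1))) (by simp),
    hb1 ⟨n + 1, by omega⟩ rfl, hb2 ⟨n + 2, by omega⟩ rfl, hbg, hbs]
  rw [hbq (Fin.castSucc (Fin.castSucc (Fin.last n))) (by simp), hb ⟨0, by omega⟩ (by simp)]
  have hfirst : ∑ i : Fin n, (BB k n (Sum.inl (Fin.castSucc (Fin.castSucc (Fin.castSucc i))))) ^ (n + 3)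
      * ∑ b, C (TT k n (Sum.inl (Fin.castSucc (Fin.castSucc (Fin.castSucc i)))) b) * BB k n b
      = (y' * x - y * x') * (x' * s - x * t) * (y' * x') *
        ∑ i ∈ Finset.range n, (y * x') ^ i * (y' * x) ^ (n - i) := by
    rw [Finset.sum_range, Finset.mul_sum]
    refine Finset.sum_congr rfl fun i _ => ?_
    rw [CT_lt _ _ (by simp), hbq _ (by simp), hb _ (by simp)]
    simp only [Fin.val_castSucc]
    obtain ⟨m, hm⟩ : ∃ m, n = i + 1 + m := ⟨n - (i + 1), by omega⟩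
    have e1 : n + 1 - (i : ℕ) = m + 2 := by omega
    have e2 : n - (i : ℕ) = m + 1 := by omega
    have e3 : n + 1 - (m + 1) = (i : ℕ) + 1 := by omega
    rw [e1, e2, e3]
    ring
  rw [hfirst]
  have hSs : S = (∑ i ∈ Finset.range n, (y * x') ^ i * (y' * x) ^ (n - i)) + (y * x') ^ n := by
    rw [hS, Finset.sum_range_succ, Nat.sub_self, pow_zero, mul_one]
  set S0 := ∑ i ∈ Finset.range n, (y * x') ^ i * (y' * x) ^ (n - i) with hS0
  rw [hSs] at hid
  simp only [Fin.val_castSucc, Fin.val_last, Nat.add_sub_cancel_left, Nat.sub_zero]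
  have e1 : (y * x') ^ n = y ^ n * x' ^ n := mul_pow _ _ _
  rw [e1] at hid
  linear_combination hid

/-- the monomials of degree `q ^ 2 - 1` -/
noncomputable def m4 (k : Type u) [Field k] (n j j' i i' : ℕ) : MvPolynomial (Fin 2) k :=
  (X 0 ^ (n + 3)) ^ j * (X 1 ^ (n + 3)) ^ j' * (X 0 ^ i * X 1 ^ i')

lemma gen_le {j j' i i' : ℕ} (hj : j + j' = n + 1) (hi : i + i' = n + 1) :
    Sp (BB k n) (n + 1) (m4 k n j (j' + 1) (i + 1) i' - m4 k n (j + 1) j' i (i' + 1)) ∨ j' = 0 := by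
  rcases Nat.eq_zero_or_pos j' with h | h
  · exact Or.inr h
  · left
    have h1 : (⟨j, by omega⟩ : Fin (n + 3)).val ≤ n := by simp only; omega
    have := Sp.gen (B := BB k n) (m := n + 1) (Sum.inl ⟨j, by omega⟩) (hom_mon' (k := k) hi)
    rw [BB_le _ h1] at this
    simp only at this
    rw [show n + 1 - j = j' by omega] at this
    convert this using 1
    unfold m4
    ring

lemma gen_one {i i' : ℕ} (hi : i + i' = n + 1) :
    Sp (BB k n) (n + 1) (m4 k n (n + 1) 1 (i + 1) i') := by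
  have := Sp.gen (B := BB k n) (m := n + 1) (Sum.inl ⟨n + 1, by omega⟩) (hom_mon' (k := k) hi)
  rw [BB_n1 _ rfl] at this
  convert this using 1
  unfold m4
  ring

lemma gen_two {i i' : ℕ} (hi : i + i' = n + 1) :
    Sp (BB k n) (n + 1) (m4 k n (n + 2) 0 (i + 1) i') := by
  have := Sp.gen (B := BB k n) (m := n + 1) (Sum.inl ⟨n + 2, by omega⟩) (hom_mon' (k := k) hi)
  rw [BB_n2 _ rfl] at this
  convert this using 1
  unfold m4
  ring

lemma gen_g {i i' : ℕ} (hi : i + i' = n + 1) :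
    Sp (BB k n) (n + 1) (m4 k n (n + 2) 0 i (i' + 1)) := by
  have := Sp.gen (B := BB k n) (m := n + 1) (Sum.inr 0) (hom_mon' (k := k) hi)
  rw [BB_g] at this
  convert this using 1
  unfold m4
  ring

lemma gen_s {i i' : ℕ} (hi : i + i' = n + 1) :
    Sp (BB k n) (n + 1) (m4 k n 0 (n + 2) i (i' + 1)) := by
  have := Sp.gen (B := BB k n) (m := n + 1) (Sum.inr 1) (hom_mon' (k := k) hi)
  rw [BB_s] at this
  convert this using 1
  unfold m4
  ring

lemma sp_low (j : ℕ) : ∀ j' i i' : ℕ, j + j' = n + 2 → i + i' = n + 2 → j + i ≤ n + 1 →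
    Sp (BB k n) (n + 1) (m4 k n j j' i i') := by
  induction j with
  | zero =>
    intro j' i i' hj hi hji
    obtain ⟨i'', rfl⟩ : ∃ i'', i' = i'' + 1 := ⟨i' - 1, by omega⟩
    obtain rfl : j' = n + 2 := by omega
    exact gen_s (by omega)
  | succ j ih =>
    intro j' i i' hj hi hji
    obtain ⟨i'', rfl⟩ : ∃ i'', i' = i'' + 1 := ⟨i' - 1, by omega⟩
    have h1 := ih (j' + 1) (i + 1) i'' (by omega) (by omega) (by omega)
    rcases gen_le (k := k) (n := n) (j := j) (j' := j') (i := i) (i' := i'') (by omega) (by omega)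
      with h2 | h2
    · have := h1.add h2.neg
      convert this using 1
      ring
    · omega

lemma sp_high (d : ℕ) : ∀ j j' i i' : ℕ, n + 1 = j + d → j + j' = n + 2 → i + i' = n + 2 →
    n + 2 ≤ j + i → Sp (BB k n) (n + 1) (m4 k n j j' i i') := by
  induction d with
  | zero =>
    intro j j' i i' hd hj hi hji
    obtain ⟨i0, rfl⟩ : ∃ i0, i = i0 + 1 := ⟨i - 1, by omega⟩
    obtain rfl : j = n + 1 := by omega
    obtain rfl : j' = 1 := by omega
    exact gen_one (by omega)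
  | succ d ih =>
    intro j j' i i' hd hj hi hji
    obtain ⟨i0, rfl⟩ : ∃ i0, i = i0 + 1 := ⟨i - 1, by omega⟩
    obtain ⟨j0, rfl⟩ : ∃ j0, j' = j0 + 1 := ⟨j' - 1, by omega⟩
    have h1 := ih (j + 1) j0 i0 (i' + 1) (by omega) (by omega) (by omega) (by omega)
    rcases gen_le (k := k) (n := n) (j := j) (j' := j0) (i := i0) (i' := i') (by omega) (by omega)
      with h2 | h2
    · have := h1.add h2
      convert this using 1
      ring
    · omega

lemma sp_all {j j' i i' : ℕ} (hj : j + j' = n + 2) (hi : i + i' = n + 2) :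
    Sp (BB k n) (n + 1) (m4 k n j j' i i') := by
  rcases Nat.lt_or_ge (j + i) (n + 2) with h | h
  · exact sp_low j j' i i' hj hi (by omega)
  · rcases Nat.lt_or_ge j (n + 2) with h' | h'
    · exact sp_high (n + 1 - j) j j' i i' (by omega) hj hi h
    · obtain rfl : j = n + 2 := by omega
      obtain rfl : j' = 0 := by omega
      rcases Nat.eq_zero_or_pos i' with rfl | hp
      · obtain rfl : i = (n + 1) + 1 := by omega
        exact gen_two (by omega)
      · obtain ⟨i0, rfl⟩ : ∃ i0, i' = i0 + 1 := ⟨i' - 1, by omega⟩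
        exact gen_g (by omega)

theorem BB_span (R : MvPolynomial (Fin 2) k) (hR : R.IsHomogeneous ((n + 3 + 1) * (n + 2))) :
    Sp (BB k n) (n + 1) R := by
  refine hom_induction (p := Sp (BB k n) (n + 1)) Sp.zero (fun a b => Sp.add) ?_ R hR
  intro N N' c hN
  refine Sp.smul c ?_
  have hi : N % (n + 3) < n + 3 := Nat.mod_lt _ (by omega)
  have hdiv : N = (n + 3) * (N / (n + 3)) + N % (n + 3) := (Nat.div_add_mod N (n + 3)).symm
  have hj : N / (n + 3) < n + 3 := by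
    rw [Nat.div_lt_iff_lt_mul (by omega)]
    have : N ≤ (n + 3 + 1) * (n + 2) := by omega
    nlinarith
  set j := N / (n + 3) with hjd
  set i := N % (n + 3) with hid
  obtain ⟨j', hj'⟩ : ∃ j', j + j' = n + 2 := ⟨n + 2 - j, by omega⟩
  obtain ⟨i', hi'⟩ : ∃ i', i + i' = n + 2 := ⟨n + 2 - i, by omega⟩
  have hN' : N' = (n + 3) * j' + i' := by
    have h1 : (n + 3 + 1) * (n + 2) = (n + 3) * (j + j') + (i + i') := by
      rw [hj', hi']; ring
    rw [h1, hdiv] at hN
    have h2 : (n + 3) * (j + j') = (n + 3) * j + (n + 3) * j' := by ring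
    omega
  have : (X 0 ^ N * X 1 ^ N' : MvPolynomial (Fin 2) k) = m4 k n j j' i i' := by
    unfold m4
    rw [hN', hdiv, pow_add, pow_add, pow_mul, pow_mul]
    ring
  rw [this]
  exact sp_all hj' hi'

end B

section Two

/-- the forms for `q = 2` -/
noncomputable def B2 (k : Type u) [Field k] : Fin 4 → MvPolynomial (Fin 2) k :=
  ![X 0 * X 1 ^ 2, X 0 ^ 3, X 0 ^ 2 * X 1, X 1 ^ 3]

/-- the matrix for `q = 2` -/
noncomputable def T2 (k : Type u) [Field k] : Fin 4 → Fin 4 → k :=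
  ![![-1, 0, 0, 0], ![0, 0, 0, -1], ![0, 0, 1, 0], ![0, 1, 0, 0]]

lemma B2_rel : ∑ a, (B2 k a) ^ 2 * ∑ b, C (T2 k a b) * B2 k b = 0 := by
  simp only [Fin.sum_univ_four, B2, T2]
  simp
  ring

lemma T2_inj (c : Fin 4 → k) (hc : ∀ a, ∑ b, T2 k a b * c b = 0) : c = 0 := by
  have h0 := hc 0
  have h1 := hc 1
  have h2 := hc 2
  have h3 := hc 3
  simp only [Fin.sum_univ_four, T2] at h0 h1 h2 h3
  simp at h0 h1 h2 h3
  funext i
  fin_cases i
  · exact h0
  · exact h3
  · exact h2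
  · exact h1

lemma B2_hom (a : Fin 4) : (B2 k a).IsHomogeneous 3 := by
  fin_cases a
  · show (X 0 * X 1 ^ 2 : MvPolynomial (Fin 2) k).IsHomogeneous 3
    simpa using hom_mon' (k := k) (a := 1) (b := 2) (c := 3) rfl
  · show (X 0 ^ 3 : MvPolynomial (Fin 2) k).IsHomogeneous 3
    simpa using hom_mon' (k := k) (a := 3) (b := 0) (c := 3) rfl
  · show (X 0 ^ 2 * X 1 : MvPolynomial (Fin 2) k).IsHomogeneous 3
    simpa using hom_mon' (k := k) (a := 2) (b := 1) (c := 3) rfl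
  · show (X 1 ^ 3 : MvPolynomial (Fin 2) k).IsHomogeneous 3
    simpa using hom_mon' (k := k) (a := 0) (b := 3) (c := 3) rfl

lemma B2_span (R : MvPolynomial (Fin 2) k) (hR : R.IsHomogeneous 3) : Sp (B2 k) 0 R := by
  refine hom_induction (p := Sp (B2 k) 0) Sp.zero (fun a b => Sp.add) ?_ R hR
  intro i j c hij
  refine Sp.smul c ?_
  have h1 : (1 : MvPolynomial (Fin 2) k).IsHomogeneous 0 := isHomogeneous_one _ _
  have key : i ≤ 3 := by omega
  interval_cases i
  · obtain rfl : j = 3 := by omega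
    have := Sp.gen (B := B2 k) (m := 0) 3 h1
    convert this using 1
    simp [B2]
  · obtain rfl : j = 2 := by omega
    have := Sp.gen (B := B2 k) (m := 0) 0 h1
    convert this using 1
    simp [B2]
  · obtain rfl : j = 1 := by omega
    have := Sp.gen (B := B2 k) (m := 0) 2 h1
    convert this using 1
    simp [B2]
  · obtain rfl : j = 0 := by omega
    have := Sp.gen (B := B2 k) (m := 0) 1 h1
    convert this using 1
    simp [B2]

end Two

/-- Existence of the model for every prime power `q`. -/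
theorem exists_model (k : Type u) [Field k] (q : ℕ) (hq2 : 2 ≤ q)
    (hq : ∀ a b : MvPolynomial (Fin 2) k, (a - b) ^ q = a ^ q - b ^ q) :
    ∃ (ι : Type) (_ : Fintype ι), Nonempty (Model k q ι) := by
  rcases Nat.lt_or_ge 2 q with h | h
  · obtain ⟨n, rfl⟩ : ∃ n, q = n + 3 := ⟨q - 3, by omega⟩
    refine ⟨Idx n, inferInstance, ⟨⟨BB k n, TT k n, ?_, BB_hom, TT_inj, BB_rel hq, BB_span⟩⟩⟩
    simp [Idx]
  · obtain rfl : q = 2 := by omega
    exact ⟨Fin 4, inferInstance, ⟨⟨B2 k, T2 k, by simp, B2_hom, T2_inj, B2_rel, B2_span⟩⟩⟩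

end Pool.Agent.Helper61.SRC
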