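import Pool.Agent.Helper61.SRC.Lang

/-!
Orthonormal bases of nondegenerate q-bic forms over an algebraically closed field.
-/

open Polynomial

namespace Pool.Agent.Helper61.SRC

universe u v

variable {k : Type u} [Field k] [IsAlgClosed k] {σ : k →+* k} {q : ℕ}

/-- An element of the field with q^2 elements not in the field with q elements. -/
lemma exists_quad (hq : 2 ≤ q) (hσ : ∀ x : k, σ x = x ^ q) :
    ∃ c : k, (c ^ q) ^ q = c ∧ c ^ q ≠ c := by
  by_cases h2 : (2 : k) = 0
  · have hdeg : (X ^ q + X + C 1 : k[X]).degree ≠ 0 := by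
      have h1 : (X ^ q + X + C 1 : k[X]).natDegree = q := by
        rw [natDegree_add_C]
        rw [natDegree_add_eq_left_of_natDegree_lt]
        · simp
        · simp; omega
      intro h0
      have := natDegree_eq_zero_iff_degree_le_zero.mpr h0.le
      omega
    obtain ⟨c, hc⟩ := IsAlgClosed.exists_root _ hdeg
    have hc' : (X ^ q + X + C 1 : k[X]).eval c = 0 := hc
    simp only [eval_add, eval_pow, eval_X, eval_C] at hc'
    have h1 : c ^ q = c + 1 := by linear_combination hc' - (c + 1) * h2
    refine ⟨c, ?_, ?_⟩
    · rw [h1, ← hσ, map_add, map_one, hσ, h1]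
      linear_combination h2
    · rw [h1]
      intro h
      exact one_ne_zero (α := k) (by linear_combination h)
  · obtain ⟨c, hc⟩ := IsAlgClosed.exists_pow_nat_eq (-1 : k) (n := q - 1) (by omega)
    have hq1 : q = (q - 1) + 1 := by omega
    have hcq : c ^ q = -c := by
      rw [hq1, pow_succ, hc]; ring
    have hc0 : c ≠ 0 := by
      rintro rfl
      rw [zero_pow (by omega)] at hc
      exact one_ne_zero (α := k) (by linear_combination hc)
    refine ⟨c, ?_, ?_⟩
    · rw [hcq, ← hσ, map_neg, hσ, hcq, neg_neg]
    · rw [hcq]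
      intro h
      apply hc0
      have : (2 : k) * c = 0 := by linear_combination -h
      exact (mul_eq_zero.mp this).resolve_left h2

section

variable {V : Type v} [AddCommGroup V] [Module k V] [FiniteDimensional k V]

/-- In a nondegenerate q-bic space there is a Hermitian vector of length one. -/
theorem exists_unit_vector (hq : 2 ≤ q) (hσ : ∀ x : k, σ x = x ^ q) [Nontrivial V]
    (β : V →ₛₗ[σ] V →ₗ[k] k) (hl : ∀ x, (∀ y, β x y = 0) → x = 0)
    (hr : ∀ y, (∀ x, β x y = 0) → y = 0) :
    ∃ v : V, β v v = 1 ∧ ∀ y, β y v = (β v y) ^ q := by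
  classical
  set n := Module.finrank k V with hn
  set b := Module.finBasis k V with hb
  -- the linear map w ↦ (β (b i) w)
  set E0 : V →ₗ[k] (Fin n → k) := LinearMap.pi fun i => β (b i) with hE0
  have hE0inj : Function.Injective E0 := by
    rw [injective_iff_map_eq_zero]
    intro w hw
    apply hr
    intro x
    rw [← b.sum_repr x, map_sum, LinearMap.sum_apply]
    refine Finset.sum_eq_zero fun i _ => ?_
    rw [LinearMap.map_smulₛₗ, LinearMap.smul_apply]
    have := congrFun hw i
    simp only [hE0, LinearMap.pi_apply, Pi.zero_apply] at this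
    rw [this, smul_zero]
  set E : V ≃ₗ[k] (Fin n → k) := LinearMap.linearEquivOfInjective E0 hE0inj (by simp [hn])
    with hE
  have hEapp : ∀ w i, E w i = β (b i) w := fun w i => rfl
  have hββ : ∀ v i, β (b i) (E.symm (fun j => (β v (b j)) ^ q)) = (β v (b i)) ^ q := by
    intro v i
    rw [← hEapp, LinearEquiv.apply_symm_apply]
  set τ : k →+* k := σ.comp σ with hτ
  have hτa : ∀ x, τ x = x ^ (q * q) := fun x => by
    rw [hτ, RingHom.comp_apply, hσ, hσ, ← pow_mul]
  let φ : V →ₛₗ[τ] V :=
    { toFun := fun v => E.symm (fun j => (β v (b j)) ^ q)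
      map_add' := fun v w => by
        rw [← map_add]
        congr 1
        funext j
        simp only [map_add, LinearMap.add_apply, Pi.add_apply]
        rw [← hσ, map_add, hσ, hσ]
      map_smul' := fun c v => by
        rw [← map_smul]
        congr 1
        funext j
        simp only [LinearMap.map_smulₛₗ, LinearMap.smul_apply, Pi.smul_apply, smul_eq_mul]
        rw [mul_pow, hτa, hσ, pow_mul] }
  have hφ : ∀ v y, β y (φ v) = (β v y) ^ q := by
    intro v y
    rw [← b.sum_repr y, map_sum, LinearMap.sum_apply, map_sum, ← hσ, map_sum]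
    refine Finset.sum_congr rfl fun i _ => ?_
    rw [LinearMap.map_smulₛₗ, LinearMap.smul_apply]
    show σ _ • β (b i) (E.symm (fun j => (β v (b j)) ^ q)) = _
    rw [hββ, map_smul, smul_eq_mul, smul_eq_mul, map_mul, hσ (β v (b i))]
  have hφinj : Function.Injective φ := by
    rw [injective_iff_map_eq_zero]
    intro v hv
    apply hl
    intro y
    have := hφ v y
    rw [hv, map_zero] at this
    exact pow_eq_zero_iff (by omega) |>.mp this.symm
  have hspan := span_fixed (Q := q * q) (by nlinarith) hτa n V hn.symm φ hφinj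
  obtain ⟨c, hc1, hc2⟩ := exists_quad hq hσ
  -- some Hermitian vector is not isotropic
  have hex : ∃ v : V, φ v = v ∧ β v v ≠ 0 := by
    by_contra hcon
    push Not at hcon
    have hiso : ∀ u v : V, φ u = u → φ v = v → β u v = 0 := by
      intro u v hu hv
      have e1 := hcon (u + v) (by rw [map_add, hu, hv])
      have e2 := hcon (c • u + v) (by
        rw [map_add, LinearMap.map_smulₛₗ, hτa, pow_mul, hc1, hu, hv])
      have e3 := hcon u hu
      have e4 := hcon v hv
      simp only [map_add, LinearMap.add_apply, LinearMap.map_smulₛₗ, LinearMap.smul_apply,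
        smul_eq_mul, RingHom.id_apply, hσ, e3, e4] at e1 e2
      have e5 : (c ^ q - c) * β u v = 0 := by
        linear_combination e2 - c * e1
      exact (mul_eq_zero.mp e5).resolve_left (sub_ne_zero.mpr hc2)
    obtain ⟨w, hw⟩ := exists_ne (0 : V)
    have hall : ∀ u : V, φ u = u → u = 0 := by
      intro u hu
      apply hl
      intro y
      have hy : y ∈ Submodule.span k {v : V | φ v = v} := by rw [hspan]; trivial
      induction hy using Submodule.span_induction with
      | mem x hx => exact hiso u x hu hx
      | zero => simp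
      | add x y _ _ hx hy => rw [map_add, hx, hy, add_zero]
      | smul a x _ hx => rw [map_smul, hx, smul_zero]
    have hw' : w ∈ Submodule.span k {v : V | φ v = v} := by rw [hspan]; trivial
    have : Submodule.span k {v : V | φ v = v} ≤ ⊥ := by
      rw [Submodule.span_le]
      intro x hx
      exact hall x hx
    exact hw (by simpa using this hw')
  obtain ⟨v, hv, hvv⟩ := hex
  have hherm : ∀ y, β y v = (β v y) ^ q := fun y => by
    have := hφ v y
    rwa [hv] at this
  set a := β v v with ha
  have haq : a ^ q = a := (hherm v).symm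
  have haq1 : a ^ (q - 1) = 1 := by
    have h1 : a ^ (q - 1) * a = a := by
      rw [← pow_succ, show q - 1 + 1 = q by omega, haq]
    exact mul_right_cancel₀ hvv (by rw [h1, one_mul])
  obtain ⟨l, hl1⟩ := IsAlgClosed.exists_pow_nat_eq (a⁻¹ : k) (n := q + 1) (by omega)
  have hlq : l ^ (q * q) = l := by
    have h1 : l ^ ((q + 1) * (q - 1)) = 1 := by
      rw [pow_mul, hl1, inv_pow, haq1, inv_one]
    have h2 : q * q = (q + 1) * (q - 1) + 1 := by
      obtain ⟨m, rfl⟩ : ∃ m, q = m + 1 := ⟨q - 1, by omega⟩
      simp only [Nat.add_sub_cancel]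
      ring
    rw [h2, pow_succ, h1, one_mul]
  have hfixl : φ (l • v) = l • v := by
    rw [LinearMap.map_smulₛₗ, hτa, hlq, hv]
  refine ⟨l • v, ?_, fun y => ?_⟩
  · rw [(β (l • v)).map_smul, β.map_smulₛₗ, LinearMap.smul_apply, hσ, smul_eq_mul, smul_eq_mul,
      ← ha, ← mul_assoc, ← pow_succ', hl1, inv_mul_cancel₀ hvv]
  · have := hφ (l • v) y
    rwa [hfixl] at this

end

/-- Every nondegenerate q-bic form over an algebraically closed field has an orthonormal
basis. -/
theorem exists_orthonormal (hq : 2 ≤ q) (hσ : ∀ x : k, σ x = x ^ q) (n : ℕ) :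
    ∀ (V : Type v) [AddCommGroup V] [Module k V] [FiniteDimensional k V],
      Module.finrank k V = n → ∀ (β : V →ₛₗ[σ] V →ₗ[k] k),
        (∀ x, (∀ y, β x y = 0) → x = 0) → (∀ y, (∀ x, β x y = 0) → y = 0) →
        ∃ e : Fin n → V, ∀ i j, β (e i) (e j) = if i = j then 1 else 0 := by
  induction n with
  | zero =>
    intro V _ _ _ _ β _ _
    exact ⟨fun i => i.elim0, fun i => i.elim0⟩
  | succ n ih =>
    intro V _ _ _ hn β hl hr
    have hnt : Nontrivial V := Module.nontrivial_of_finrank_pos (R := k) (by omega)
    obtain ⟨v, hvv, hv⟩ := exists_unit_vector hq hσ β hl hr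
    set L : Submodule k V := LinearMap.ker (β v) with hL
    have hsurj : Function.Surjective (β v) := by
      intro c
      exact ⟨c • v, by rw [map_smul, hvv, smul_eq_mul, mul_one]⟩
    have hfr : Module.finrank k L = n := by
      have h1 := LinearMap.finrank_range_add_finrank_ker (β v)
      rw [LinearMap.range_eq_top.mpr hsurj, finrank_top, Module.finrank_self, ← hL] at h1
      omega
    -- decomposition
    have hdec : ∀ y : V, ∃ y' ∈ L, y = β v y • v + y' := fun y => by
      refine ⟨y - β v y • v, ?_, by abel⟩
      rw [hL, LinearMap.mem_ker, map_sub, map_smul, hvv, smul_eq_mul, mul_one, sub_self]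
    have hxv : ∀ x ∈ L, β x v = 0 := fun x hx => by
      rw [hv x, (LinearMap.mem_ker.mp hx), zero_pow (by omega)]
    let γ : L →ₛₗ[σ] L →ₗ[k] k :=
      { toFun := fun x => (β (x : V)).comp L.subtype
        map_add' := fun x y => by
          ext z; simp
        map_smul' := fun c x => by
          ext z; simp }
    have hγ : ∀ x y : L, γ x y = β (x : V) (y : V) := fun x y => rfl
    have hγl : ∀ x, (∀ y, γ x y = 0) → x = 0 := by
      intro x hx
      have : (x : V) = 0 := by
        apply hl
        intro y
        obtain ⟨y', hy', hy⟩ := hdec y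
        rw [hy, map_add, map_smul, hxv x x.2, smul_zero, zero_add]
        exact hx ⟨y', hy'⟩
      exact Subtype.ext this
    have hγr : ∀ y, (∀ x, γ x y = 0) → y = 0 := by
      intro y hy
      have : (y : V) = 0 := by
        apply hr
        intro x
        obtain ⟨x', hx', hx⟩ := hdec x
        rw [hx, map_add, LinearMap.add_apply, LinearMap.map_smulₛₗ, LinearMap.smul_apply,
          (LinearMap.mem_ker.mp y.2), smul_zero, zero_add]
        exact hy ⟨x', hx'⟩
      exact Subtype.ext this
    obtain ⟨e, he⟩ := ih L hfr γ hγl hγr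
    refine ⟨Fin.cons v fun i => (e i : V), fun i j => ?_⟩
    refine Fin.cases ?_ (fun i' => ?_) i
    · refine Fin.cases ?_ (fun j' => ?_) j
      · simp [hvv]
      · simp only [Fin.cons_zero, Fin.cons_succ]
        rw [LinearMap.mem_ker.mp (e j').2]
        rw [if_neg (Fin.succ_ne_zero j').symm]
    · refine Fin.cases ?_ (fun j' => ?_) j
      · simp only [Fin.cons_zero, Fin.cons_succ]
        rw [hxv _ (e i').2, if_neg (Fin.succ_ne_zero i')]
      · simp only [Fin.cons_succ]
        have := he i' j'
        rw [hγ] at this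
        rw [this]
        simp

end Pool.Agent.Helper61.SRC
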