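import Pool.Agent.Helper61.SRC.Defs
import Pool.Agent.Helper61.SRC.QBic
import Pool.Agent.Helper61.SRC.Model

/-!
Very free rational curves on smooth q-bic hypersurfaces: the proof.
-/

open MvPolynomial

namespace Pool.Agent.Helper61.SRC

universe u

variable {k : Type u} [Field k] {N : ℕ}

lemma qbic_hom (q : ℕ) (G : Matrix (Fin (N + 1)) (Fin (N + 1)) k) :
    (qbic q G).IsHomogeneous (q + 1) := by
  refine IsHomogeneous.sum _ _ _ fun i _ => IsHomogeneous.sum _ _ _ fun j _ => ?_
  simpa using (isHomogeneous_C (Fin (N + 1)) (G i j)).mul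
    ((isHomogeneous_X_pow (R := k) i q).mul (isHomogeneous_X k j))

lemma pderiv_qbic (q : ℕ) (hq : (q : k) = 0) (G : Matrix (Fin (N + 1)) (Fin (N + 1)) k)
    (j : Fin (N + 1)) : pderiv j (qbic q G) = ∑ i, C (G i j) * X i ^ q := by
  have hqC : ((q : ℕ) : MvPolynomial (Fin (N + 1)) k) = 0 := by
    rw [← map_natCast (C : k →+* MvPolynomial (Fin (N + 1)) k), hq, C_0]
  unfold qbic
  rw [map_sum]
  refine Finset.sum_congr rfl fun i _ => ?_
  rw [map_sum]
  have : ∀ l, pderiv j (C (G i l) * (X i ^ q * X l)) = if l = j then C (G i l) * X i ^ q else 0 := by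
    intro l
    rw [pderiv_C_mul, Derivation.leibniz, Derivation.leibniz_pow, pderiv_X]
    simp only [smul_eq_mul, nsmul_eq_mul, hqC, zero_mul, mul_zero, add_zero]
    by_cases h : l = j
    · subst h; simp
    · rw [if_neg h, Pi.single_eq_of_ne h]; simp
  rw [Finset.sum_congr rfl fun l _ => this l]
  simp

/-- the q-bic form of a matrix as a sesquilinear map -/
noncomputable def betaG {q : ℕ} (σ : k →+* k) (hσ : ∀ x, σ x = x ^ q)
    (G : Matrix (Fin (N + 1)) (Fin (N + 1)) k) :
    (Fin (N + 1) → k) →ₛₗ[σ] (Fin (N + 1) → k) →ₗ[k] k where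
  toFun x :=
    { toFun := fun y => ∑ i, x i ^ q * ∑ j, G i j * y j
      map_add' := fun y z => by
        simp only [Pi.add_apply, mul_add, Finset.sum_add_distrib]
      map_smul' := fun c y => by
        simp only [Pi.smul_apply, smul_eq_mul, RingHom.id_apply, Finset.mul_sum]
        refine Finset.sum_congr rfl fun i _ => Finset.sum_congr rfl fun j _ => ?_
        ring }
  map_add' x y := by
    ext z
    simp only [LinearMap.coe_mk, AddHom.coe_mk, LinearMap.add_apply, Pi.add_apply,
      LinearMap.comp_apply, ← Finset.sum_add_distrib]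
    refine Finset.sum_congr rfl fun i _ => ?_
    rw [← hσ, map_add, hσ, hσ]; ring
  map_smul' c x := by
    ext z
    simp only [LinearMap.coe_mk, AddHom.coe_mk, LinearMap.smul_apply, Pi.smul_apply, smul_eq_mul,
      LinearMap.comp_apply, Finset.mul_sum, hσ]
    refine Finset.sum_congr rfl fun i _ => Finset.sum_congr rfl fun j _ => ?_
    ring

lemma betaG_nondeg {q : ℕ} (hq : q ≠ 0) (σ : k →+* k) (hσ : ∀ x, σ x = x ^ q)
    (G : Matrix (Fin (N + 1)) (Fin (N + 1)) k) (hG : G.det ≠ 0) :
    (∀ x, (∀ y, betaG σ hσ G x y = 0) → x = 0) ∧ (∀ y, (∀ x, betaG σ hσ G x y = 0) → y = 0) := by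
  constructor
  · intro x hx
    have h1 : Matrix.vecMul (fun i => x i ^ q) G = 0 := by
      funext j
      have := hx (Pi.single j 1)
      simp only [betaG, LinearMap.coe_mk, AddHom.coe_mk] at this
      simpa [Matrix.vecMul, dotProduct, Pi.single_apply] using this
    have h2 : (fun i => x i ^ q) = 0 := by
      by_contra h
      exact hG ((Matrix.exists_vecMul_eq_zero_iff).mp ⟨_, h, h1⟩)
    funext i
    exact (pow_eq_zero_iff hq).mp (congrFun h2 i)
  · intro y hy
    have h1 : Matrix.mulVec G y = 0 := by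
      funext i
      have := hy (Pi.single i 1)
      simp only [betaG, LinearMap.coe_mk, AddHom.coe_mk, Pi.single_apply] at this
      simpa [Matrix.mulVec, dotProduct, ite_pow, hq] using this
    by_contra h
    exact hG ((Matrix.exists_mulVec_eq_zero_iff).mp ⟨_, h, h1⟩)

section Model

variable {q : ℕ} {ι : Type} [Fintype ι] {κ : Type} [Fintype κ]

/-- the model form on `k^(ι ⊕ κ)` -/
noncomputable def beta0 (σ : k →+* k) (hσ : ∀ x, σ x = x ^ q) (T : ι → ι → k) :
    (ι ⊕ κ → k) →ₛₗ[σ] (ι ⊕ κ → k) →ₗ[k] k where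
  toFun x :=
    { toFun := fun y => ∑ a, x (Sum.inl a) ^ q * ∑ b, T a b * y (Sum.inl b)
        + ∑ c, x (Sum.inr c) ^ q * y (Sum.inr c)
      map_add' := fun y z => by
        simp only [Pi.add_apply, mul_add, Finset.sum_add_distrib]
        ring
      map_smul' := fun c y => by
        simp only [Pi.smul_apply, smul_eq_mul, RingHom.id_apply, Finset.mul_sum, mul_add]
        congr 1
        · refine Finset.sum_congr rfl fun i _ => Finset.sum_congr rfl fun j _ => ?_
          ring
        · refine Finset.sum_congr rfl fun i _ => ?_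
          ring }
  map_add' x y := by
    have h : ∀ a b : k, (a + b) ^ q = a ^ q + b ^ q := fun a b => by
      rw [← hσ, map_add, hσ, hσ]
    refine LinearMap.ext fun z => ?_
    simp only [LinearMap.coe_mk, AddHom.coe_mk, LinearMap.add_apply, Pi.add_apply, h, add_mul,
      Finset.sum_add_distrib]
    ring
  map_smul' c x := by
    refine LinearMap.ext fun z => ?_
    simp only [LinearMap.coe_mk, AddHom.coe_mk, LinearMap.smul_apply, Pi.smul_apply, smul_eq_mul,
      Finset.mul_sum, hσ, mul_add, mul_pow]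
    congr 1
    · refine Finset.sum_congr rfl fun i _ => Finset.sum_congr rfl fun j _ => ?_
      ring
    · refine Finset.sum_congr rfl fun i _ => ?_
      ring

lemma beta0_nondeg (hq : q ≠ 0) (σ : k →+* k) (hσ : ∀ x, σ x = x ^ q) (T : ι → ι → k)
    (hT : ∀ c : ι → k, (∀ a, ∑ b, T a b * c b = 0) → c = 0) :
    (∀ x, (∀ y, beta0 (κ := κ) σ hσ T x y = 0) → x = 0) ∧
      (∀ y, (∀ x, beta0 (κ := κ) σ hσ T x y = 0) → y = 0) := by
  classical
  have hdet : (Matrix.of T).det ≠ 0 := by
    intro h
    obtain ⟨v, hv, hv'⟩ := (Matrix.exists_mulVec_eq_zero_iff).mpr h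
    exact hv (hT v fun a => by
      have := congrFun hv' a
      simpa [Matrix.mulVec, dotProduct] using this)
  constructor
  · intro x hx
    have h1 : Matrix.vecMul (fun a => x (Sum.inl a) ^ q) (Matrix.of T) = 0 := by
      funext j
      have := hx (Pi.single (Sum.inl j) 1)
      simp only [beta0, LinearMap.coe_mk, AddHom.coe_mk] at this
      simpa [Matrix.vecMul, dotProduct, Pi.single_apply] using this
    have h2 : (fun a => x (Sum.inl a) ^ q) = 0 := by
      by_contra h
      exact hdet ((Matrix.exists_vecMul_eq_zero_iff).mp ⟨_, h, h1⟩)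
    funext i
    rcases i with a | c
    · exact (pow_eq_zero_iff hq).mp (congrFun h2 a)
    · have := hx (Pi.single (Sum.inr c) 1)
      simp only [beta0, LinearMap.coe_mk, AddHom.coe_mk] at this
      have h3 : x (Sum.inr c) ^ q = 0 := by simpa [Pi.single_apply] using this
      exact (pow_eq_zero_iff hq).mp h3
  · intro y hy
    have h1 : (fun b => y (Sum.inl b)) = 0 := by
      apply hT
      intro a
      have := hy (Pi.single (Sum.inl a) 1)
      simp only [beta0, LinearMap.coe_mk, AddHom.coe_mk, Pi.single_apply] at this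
      simpa [ite_pow, hq] using this
    funext i
    rcases i with a | c
    · exact congrFun h1 a
    · have := hy (Pi.single (Sum.inr c) 1)
      simp only [beta0, LinearMap.coe_mk, AddHom.coe_mk, Pi.single_apply] at this
      simpa [ite_pow, hq] using this

end Model

lemma sesq_expand {q : ℕ} {σ : k →+* k} (hσ : ∀ x, σ x = x ^ q) {n : ℕ}
    {U : Type*} [AddCommGroup U] [Module k U] (δ : U →ₛₗ[σ] U →ₗ[k] k)
    (f : Fin n → U) (hf : ∀ i j, δ (f i) (f j) = if i = j then 1 else 0) (x y : Fin n → k) :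
    δ (∑ i, x i • f i) (∑ i, y i • f i) = ∑ i, x i ^ q * y i := by
  rw [map_sum δ, LinearMap.sum_apply]
  refine Finset.sum_congr rfl fun i _ => ?_
  rw [LinearMap.map_smulₛₗ, LinearMap.smul_apply, map_sum, hσ]
  simp [hf]

/-- an isometry between spaces with orthonormal families of full length -/
lemma exists_isometry {q : ℕ} {σ : k →+* k} (hσ : ∀ x, σ x = x ^ q) {n : ℕ}
    {V W : Type*} [AddCommGroup V] [Module k V] [FiniteDimensional k V]
    [AddCommGroup W] [Module k W]
    (hV : Module.finrank k V = n)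
    (β : V →ₛₗ[σ] V →ₗ[k] k) (γ : W →ₛₗ[σ] W →ₗ[k] k) (e : Fin n → V) (e' : Fin n → W)
    (he : ∀ i j, β (e i) (e j) = if i = j then 1 else 0)
    (he' : ∀ i j, γ (e' i) (e' j) = if i = j then 1 else 0) :
    ∃ L : V →ₗ[k] W, ∀ x y, γ (L x) (L y) = β x y := by
  classical
  have hli : LinearIndependent k e := by
    rw [Fintype.linearIndependent_iff]
    intro g hg i
    have h1 : β (e i) (∑ j, g j • e j) = g i := by
      rw [map_sum]
      simp [he]
    rw [← h1, hg, map_zero]
  let b : Module.Basis (Fin n) k V :=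
    basisOfLinearIndependentOfCardEqFinrank' e hli (by simp [hV])
  have hb : ∀ i, b i = e i := fun i => by simp [b]
  refine ⟨b.constr k e', fun x y => ?_⟩
  have hx : ∀ x : V, b.constr k e' x = ∑ i, b.repr x i • e' i := fun x => by
    conv_lhs => rw [← b.sum_repr x, map_sum]
    refine Finset.sum_congr rfl fun i _ => ?_
    rw [map_smul, b.constr_basis]
  have hx' : ∀ x : V, x = ∑ i, b.repr x i • e i := fun x => by
    conv_lhs => rw [← b.sum_repr x]
    exact Finset.sum_congr rfl fun i _ => by rw [hb]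
  rw [hx x, hx y, sesq_expand hσ γ e' he']
  conv_rhs => rw [hx' x, hx' y]
  rw [sesq_expand hσ β e he]

/-- main step: the curve on the hypersurface and its positivity -/
theorem exists_veryFree [IsAlgClosed k] {q : ℕ} (hq2 : 2 ≤ q) (hqk : (q : k) = 0)
    (σ : k →+* k) (hσ : ∀ x, σ x = x ^ q)
    (hadd : ∀ a b : MvPolynomial (Fin 2) k, (a + b) ^ q = a ^ q + b ^ q)
    (hN : q + 1 ≤ N) (G : Matrix (Fin (N + 1)) (Fin (N + 1)) k) (hG : G.det ≠ 0) :
    ∃ c : RationalCurve (qbic q G), c.e = q * (q - 1) + 1 ∧ c.VeryFree := by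
  classical
  have hq0 : q ≠ 0 := by omega
  -- Frobenius on binary forms
  let Φ : MvPolynomial (Fin 2) k →+* MvPolynomial (Fin 2) k :=
    { toFun := fun a => a ^ q
      map_one' := one_pow q
      map_mul' := fun a b => mul_pow a b q
      map_zero' := zero_pow hq0
      map_add' := hadd }
  have hΦ : ∀ a, Φ a = a ^ q := fun a => rfl
  obtain ⟨ι, hι, ⟨M⟩⟩ := exists_model k q hq2 (fun a b => by
    rw [← hΦ, map_sub, hΦ, hΦ])
  set κ := Fin (N + 1 - (q + 2)) with hκ
  have hcard : Module.finrank k (ι ⊕ κ → k) = N + 1 := by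
    have h1 : Fintype.card κ = N + 1 - (q + 2) := Fintype.card_fin _
    rw [Module.finrank_fintype_fun_eq_card, Fintype.card_sum, M.card, h1]
    omega
  obtain ⟨hG1, hG2⟩ := betaG_nondeg hq0 σ hσ G hG
  obtain ⟨h01, h02⟩ := beta0_nondeg (κ := κ) hq0 σ hσ M.T M.inj
  obtain ⟨e, he⟩ := exists_orthonormal hq2 hσ (N + 1) _ (by simp) (betaG σ hσ G) hG1 hG2
  obtain ⟨e0, he0⟩ := exists_orthonormal hq2 hσ (N + 1) _ hcard (beta0 (κ := κ) σ hσ M.T) h01 h02
  obtain ⟨L, hL⟩ := exists_isometry hσ hcard (beta0 (κ := κ) σ hσ M.T) (betaG σ hσ G) e0 e he0 he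
  have hLinj : Function.Injective L := by
    rw [injective_iff_map_eq_zero]
    intro x hx
    apply h01
    intro y
    rw [← hL, hx, map_zero, LinearMap.zero_apply]
  -- matrix of the isometry on the first block
  set lam : Fin (N + 1) → ι → k := fun i a => L (Pi.single (Sum.inl a) 1) i with hlam
  have hGT : ∀ a b, ∑ i, lam i a ^ q * ∑ j, G i j * lam j b = M.T a b := by
    intro a b
    have h1 := hL (Pi.single (Sum.inl a) 1) (Pi.single (Sum.inl b) 1)
    have h2 : betaG σ hσ G (L (Pi.single (Sum.inl a) 1)) (L (Pi.single (Sum.inl b) 1))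
        = ∑ i, lam i a ^ q * ∑ j, G i j * lam j b := rfl
    rw [← h2, h1]
    simp only [beta0, LinearMap.coe_mk, AddHom.coe_mk]
    simp [Pi.single_apply, ite_pow, hq0]
  -- the curve
  set f : Fin (N + 1) → MvPolynomial (Fin 2) k := fun i => ∑ a, C (lam i a) * M.B a with hf
  have hfhom : ∀ i, (f i).IsHomogeneous (q * (q - 1) + 1) := fun i => by
    refine IsHomogeneous.sum _ _ _ fun a _ => ?_
    simpa using (isHomogeneous_C (Fin 2) (lam i a)).mul (M.hom a)
  have hfq : ∀ i, f i ^ q = ∑ a, C (lam i a ^ q) * M.B a ^ q := fun i => by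
    rw [← hΦ, hf, map_sum]
    refine Finset.sum_congr rfl fun a _ => ?_
    rw [hΦ, mul_pow, C_pow]
  have haeval : aeval f (qbic q G) = ∑ i, ∑ j, C (G i j) * (f i ^ q * f j) := by
    unfold qbic
    simp only [map_sum, map_mul, map_pow, aeval_X, aeval_C]
    rfl
  have hrel : ∑ i, ∑ j, C (G i j) * (f i ^ q * f j) = 0 := by
    have h1 : ∑ i, ∑ j, C (G i j) * (f i ^ q * f j)
        = ∑ a, M.B a ^ q * ∑ b, C (∑ i, lam i a ^ q * ∑ j, G i j * lam j b) * M.B b := by
      have e1 : ∀ i, ∑ j, C (G i j) * (f i ^ q * f j)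
          = ∑ a, ∑ b, C (lam i a ^ q * ∑ j, G i j * lam j b) * (M.B a ^ q * M.B b) := by
        intro i
        have e2 : ∀ j, C (G i j) * (f i ^ q * f j)
            = ∑ a, ∑ b, C (lam i a ^ q * (G i j * lam j b)) * (M.B a ^ q * M.B b) := by
          intro j
          rw [hfq i, hf]
          simp only
          rw [Finset.sum_mul_sum, Finset.mul_sum]
          refine Finset.sum_congr rfl fun a _ => ?_
          rw [Finset.mul_sum]
          refine Finset.sum_congr rfl fun b _ => ?_
          rw [C_mul, C_mul]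
          ring
        rw [Finset.sum_congr rfl fun j _ => e2 j, Finset.sum_comm]
        refine Finset.sum_congr rfl fun a _ => ?_
        rw [Finset.sum_comm]
        refine Finset.sum_congr rfl fun b _ => ?_
        rw [← Finset.sum_mul, ← map_sum, Finset.mul_sum]
      rw [Finset.sum_congr rfl fun i _ => e1 i, Finset.sum_comm]
      refine Finset.sum_congr rfl fun a _ => ?_
      rw [Finset.sum_comm, Finset.mul_sum]
      refine Finset.sum_congr rfl fun b _ => ?_
      rw [← Finset.sum_mul, ← map_sum]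
      ring
    rw [h1]
    simp only [hGT]
    exact M.rel
  -- q-th roots of the entries
  have hroot : ∀ i j, ∃ z : k, z ^ q = G i j := fun i j =>
    IsAlgClosed.exists_pow_nat_eq (G i j) (by omega)
  choose g hg using hroot
  set ψ : Fin (N + 1) → MvPolynomial (Fin 2) k := fun j => ∑ i, C (g i j) * f i with hψ
  have hψhom : ∀ j, (ψ j).IsHomogeneous (q * (q - 1) + 1) := fun j => by
    refine IsHomogeneous.sum _ _ _ fun i _ => ?_
    simpa using (isHomogeneous_C (Fin 2) (g i j)).mul (hfhom i)
  have hψq : ∀ j, ψ j ^ q = ∑ i, C (G i j) * f i ^ q := fun j => by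
    rw [← hΦ, hψ, map_sum]
    refine Finset.sum_congr rfl fun i _ => ?_
    rw [hΦ, mul_pow, ← C_pow, hg]
  -- the forms B a are combinations of the ψ j
  have hgdet : (Matrix.of g).det ≠ 0 := by
    intro h
    apply hG
    have h1 : G = (σ.mapMatrix (Matrix.of g)) := by
      ext i j
      simp [hσ, hg]
    rw [h1, ← RingHom.map_det, h, map_zero]
  let A : (ι → k) →ₗ[k] (Fin (N + 1) → k) :=
    { toFun := fun x j => ∑ i, g i j * ∑ a, lam i a * x a
      map_add' := fun x y => by
        funext j
        simp only [Pi.add_apply, mul_add, Finset.sum_add_distrib]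
      map_smul' := fun c x => by
        funext j
        simp only [Pi.smul_apply, smul_eq_mul, RingHom.id_apply, Finset.mul_sum]
        refine Finset.sum_congr rfl fun i _ => Finset.sum_congr rfl fun a _ => ?_
        ring }
  have hAinj : Function.Injective A := by
    rw [injective_iff_map_eq_zero]
    intro x hx
    have h1 : Matrix.vecMul (fun i => ∑ a, lam i a * x a) (Matrix.of g) = 0 := by
      funext j
      have : ∑ i, g i j * ∑ a, lam i a * x a = 0 := congrFun hx j
      rw [Pi.zero_apply, ← this]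
      simp only [Matrix.vecMul, dotProduct, Matrix.of_apply]
      exact Finset.sum_congr rfl fun i _ => mul_comm _ _
    have h2 : (fun i => ∑ a, lam i a * x a) = 0 := by
      by_contra h
      exact hgdet ((Matrix.exists_vecMul_eq_zero_iff).mp ⟨_, h, h1⟩)
    have h3 : L (fun s => Sum.elim x (fun _ => 0) s) = 0 := by
      have h4 : (fun s => Sum.elim x (fun _ => 0) s : ι ⊕ κ → k)
          = ∑ a, x a • (Pi.single (Sum.inl a) 1 : ι ⊕ κ → k) := by
        funext s
        rw [Finset.sum_apply]
        rcases s with a | c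
        · simp [Pi.single_apply]
        · simp
      rw [h4, map_sum, ← h2]
      funext i
      rw [Finset.sum_apply]
      refine Finset.sum_congr rfl fun a _ => ?_
      rw [map_smul, Pi.smul_apply, smul_eq_mul, mul_comm]
    have h5 := hLinj (h3.trans (map_zero L).symm)
    funext a
    exact congrFun h5 (Sum.inl a)
  obtain ⟨A', hA'⟩ := A.exists_leftInverse_of_injective (LinearMap.ker_eq_bot.mpr hAinj)
  set nu : ι → Fin (N + 1) → k := fun a j => A' (Pi.single j 1) a with hnu
  have hnuM : ∀ a b, ∑ j, nu a j * (∑ i, g i j * lam i b) = if a = b then 1 else 0 := by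
    intro a b
    have h1 : A' (A (Pi.single b 1)) = Pi.single b 1 := by
      have := congrArg (fun l => l (Pi.single b 1)) hA'
      simpa using this
    have h2 : A (Pi.single b 1) = ∑ j, (∑ i, g i j * lam i b) • (Pi.single j 1 : Fin (N + 1) → k) := by
      funext j
      rw [Finset.sum_apply]
      simp [A, Pi.single_apply]
    rw [h2, map_sum] at h1
    have h3 := congrFun h1 a
    rw [Finset.sum_apply, Pi.single_apply] at h3
    rw [← h3]
    refine Finset.sum_congr rfl fun j _ => ?_
    rw [map_smul, Pi.smul_apply, smul_eq_mul, mul_comm]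
  have hB : ∀ a, M.B a = ∑ j, C (nu a j) * ψ j := by
    intro a
    have h1 : ∀ j, C (nu a j) * ψ j = ∑ b, C (nu a j * (∑ i, g i j * lam i b)) * M.B b := by
      intro j
      rw [hψ, hf]
      simp only [Finset.mul_sum]
      rw [Finset.sum_comm]
      refine Finset.sum_congr rfl fun b _ => ?_
      rw [map_sum, Finset.sum_mul]
      refine Finset.sum_congr rfl fun i _ => ?_
      rw [C_mul, C_mul]
      ring
    rw [Finset.sum_congr rfl fun j _ => h1 j, Finset.sum_comm]
    have h2 : ∀ b, ∑ j, C (nu a j * (∑ i, g i j * lam i b)) * M.B b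
        = C (if a = b then 1 else 0) * M.B b := fun b => by
      rw [← Finset.sum_mul, ← map_sum, hnuM]
    rw [Finset.sum_congr rfl fun b _ => h2 b]
    simp [apply_ite (C : k → MvPolynomial (Fin 2) k)]
  have hdeg : q * (q - 1) + 1 + (q - 2) = (q + 1) * (q - 1) := by
    obtain ⟨m, rfl⟩ : ∃ m, q = m + 2 := ⟨q - 2, by omega⟩
    simp only [Nat.add_sub_cancel, show m + 2 - 1 = m + 1 by omega]
    ring
  have hspan : ∀ R : MvPolynomial (Fin 2) k, R.IsHomogeneous (q * (q - 1) + 1 + (q - 2)) →
      ∃ c : Fin (N + 1) → MvPolynomial (Fin 2) k, (∀ j, (c j).IsHomogeneous (q - 2)) ∧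
        R = ∑ j, ψ j * c j := by
    intro R hR
    rw [hdeg] at hR
    obtain ⟨c, hc, hcR⟩ := M.span R hR
    refine ⟨fun j => ∑ a, C (nu a j) * c a, fun j => ?_, ?_⟩
    · refine IsHomogeneous.sum _ _ _ fun a _ => ?_
      simpa using (isHomogeneous_C (Fin 2) (nu a j)).mul (hc a)
    · rw [hcR]
      have h1 : ∀ a, M.B a * c a = ∑ j, ψ j * (C (nu a j) * c a) := fun a => by
        conv_lhs => rw [hB a, Finset.sum_mul]
        exact Finset.sum_congr rfl fun j _ => by ring
      rw [Finset.sum_congr rfl fun a _ => h1 a, Finset.sum_comm]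
      exact Finset.sum_congr rfl fun j _ => by rw [Finset.mul_sum]
  have hbase : ∀ P : Fin 2 → k, P ≠ 0 → ∃ i, eval P (f i) ≠ 0 := by
    intro P hP
    by_contra hcon
    push Not at hcon
    have hψ0 : ∀ j, eval P (ψ j) = 0 := fun j => by
      rw [hψ, map_sum]
      refine Finset.sum_eq_zero fun i _ => ?_
      rw [map_mul, hcon i, mul_zero]
    obtain ⟨i, hi⟩ : ∃ i, P i ≠ 0 := by
      by_contra h
      push Not at h
      exact hP (funext h)
    obtain ⟨c, _, hcR⟩ := hspan (X i ^ (q * (q - 1) + 1 + (q - 2))) (isHomogeneous_X_pow _ _)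
    have := congrArg (eval P) hcR
    rw [map_pow, eval_X, map_sum] at this
    have h0 : ∑ j, eval P (ψ j * c j) = 0 := Finset.sum_eq_zero fun j _ => by
      rw [map_mul, hψ0 j, zero_mul]
    rw [h0] at this
    exact pow_ne_zero _ hi this
  refine ⟨⟨q * (q - 1) + 1, by omega, f, hfhom, hbase, by rw [haeval, hrel]⟩, rfl, ?_⟩
  intro P hP w hw
  have hpd : ∀ j, aeval f (pderiv j (qbic q G)) = ψ j ^ q := fun j => by
    rw [pderiv_qbic q hqk G j, hψq j]
    simp only [map_sum, map_mul, map_pow, aeval_X, aeval_C]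
    rfl
  have hev : ∀ j, eval (fun i => eval P (f i)) (pderiv j (qbic q G)) = eval P (ψ j) ^ q := by
    intro j
    rw [← map_pow, ← hpd j]
    rw [pderiv_qbic q hqk G j]
    simp only [map_sum, map_mul, map_pow, aeval_X, aeval_C, eval_X, eval_C,
      MvPolynomial.algebraMap_eq]
  have hw' : ∑ j, eval P (ψ j) ^ q * w j = 0 := by
    rw [← hw]
    refine Finset.sum_congr rfl fun j _ => ?_
    rw [← hev j]
  have hwroot : ∀ j, ∃ z : k, z ^ q = w j := fun j =>
    IsAlgClosed.exists_pow_nat_eq (w j) (by omega)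
  choose u hu using hwroot
  have hu0 : ∑ j, eval P (ψ j) * u j = 0 := by
    have h1 : (∑ j, eval P (ψ j) * u j) ^ q = 0 := by
      rw [← hσ, map_sum, ← hw']
      refine Finset.sum_congr rfl fun j _ => ?_
      rw [map_mul, hσ, hσ, hu]
    exact (pow_eq_zero_iff hq0).mp h1
  obtain ⟨S, hShom, hS0, hSP⟩ := exists_syzygy ψ hψhom hspan hP u hu0
  refine ⟨fun j => S j ^ q, ⟨fun j => ?_, ?_⟩, 0, fun j => ?_⟩
  · have h1 := (hShom j).pow q
    show (S j ^ q).IsHomogeneous (q * (q - 1) + 1 - 1)
    rw [Nat.add_sub_cancel]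
    convert h1 using 1
    rw [show q - 2 + 1 = q - 1 by omega, mul_comm]
  · have h1 : ∑ j, aeval f (pderiv j (qbic q G)) * S j ^ q = Φ (∑ j, ψ j * S j) := by
      rw [map_sum]
      refine Finset.sum_congr rfl fun j _ => ?_
      rw [hpd j, hΦ, mul_pow]
    show ∑ j, aeval f (pderiv j (qbic q G)) * S j ^ q = 0
    rw [h1, hS0, map_zero]
  · rw [map_pow, hSP, hu]
    ring

/-- **Main theorem.** Let `k` be an algebraically closed field of characteristic `p > 0`, `q` a
positive power of `p` and `N ≥ q + 1`.  Every smooth hypersurface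
`∑ G_ij x_i^q x_j = 0` of degree `q + 1` in `P^N` has a very free rational curve. -/
theorem main (p : ℕ) (hp : p.Prime) (k : Type u) [Field k] [IsAlgClosed k] [CharP k p]
    (r N : ℕ) (hr : 0 < r) (hN : p ^ r + 1 ≤ N) (G : Matrix (Fin (N + 1)) (Fin (N + 1)) k)
    (hG : G.det ≠ 0) :
    (qbic (p ^ r) G).IsHomogeneous (p ^ r + 1) ∧ SmoothHypersurface (qbic (p ^ r) G) ∧
      ∃ c : RationalCurve (qbic (p ^ r) G), c.e = p ^ r * (p ^ r - 1) + 1 ∧ c.VeryFree := by
  have : Fact p.Prime := ⟨hp⟩
  have hq2 : 2 ≤ p ^ r := by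
    calc 2 ≤ p := hp.two_le
      _ = p ^ 1 := (pow_one p).symm
      _ ≤ p ^ r := Nat.pow_le_pow_right hp.pos hr
  have hqk : ((p ^ r : ℕ) : k) = 0 := by
    rw [Nat.cast_pow, CharP.cast_eq_zero, zero_pow hr.ne']
  refine ⟨qbic_hom _ _, ?_, ?_⟩
  · intro x hx _
    by_contra hcon
    push Not at hcon
    have h1 : Matrix.vecMul (fun i => x i ^ p ^ r) G = 0 := by
      funext j
      have := hcon j
      rw [pderiv_qbic _ hqk G j] at this
      simp only [map_sum, map_mul, map_pow, eval_X, eval_C] at this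
      simp only [Matrix.vecMul, dotProduct, Pi.zero_apply]
      rw [← this]
      exact Finset.sum_congr rfl fun i _ => mul_comm _ _
    have h2 : (fun i => x i ^ p ^ r) = 0 := by
      by_contra h
      exact hG ((Matrix.exists_vecMul_eq_zero_iff).mp ⟨_, h, h1⟩)
    apply hx
    funext i
    exact (pow_eq_zero_iff (by omega)).mp (congrFun h2 i)
  · exact exists_veryFree hq2 hqk (iterateFrobenius k p r) (fun x => iterateFrobenius_def p r x)
      (fun a b => add_pow_char_pow a b p r) hN G hG

end Pool.Agent.Helper61.SRC
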